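import Pool.Agent.Helper812_TC.Support

/-! If there are finitely many limit values, they are all the zeros of an integer polynomial. -/

set_option autoImplicit false

open Filter Topology Polynomial Pool.Agent.H406.EDG

namespace Pool.Agent.Helper812_TC

theorem aeval_pi {V : Finset ℝ} (Q : ℤ[X]) (v : V) :
    (aeval (fun v : V => (v : ℝ)) Q) v = (rl Q).eval (v : ℝ) := by
  have h := Polynomial.aeval_algHom_apply (Pi.evalAlgHom ℤ (fun _ : V => ℝ) v) (fun v : V => (v : ℝ)) Q
  have e : (aeval (fun v : V => (v : ℝ)) Q) v = aeval (v : ℝ) Q := by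
    rw [← show (Pi.evalAlgHom ℤ (fun _ : V => ℝ) v) (fun v : V => (v : ℝ)) = (v : ℝ) from rfl, h]
    rfl
  rw [e, aeval_def, eval₂_eq_eval_map]
  rfl

/-- the points of a measure with finite support and integral moments are algebraic integers -/
theorem integral_points (V : Finset ℝ) (δ : ℝ → ℝ) (hδ : ∀ v ∈ V, 0 < δ v)
    (hI : ∀ Q : ℤ[X], ∃ M : ℤ, ∑ v ∈ V, (rl Q).eval v * δ v = M) : ∀ v ∈ V, IsIntegral ℤ v := by
  classical
  set x : V → ℝ := fun v => (v : ℝ) with hx
  set N : ℕ := (V.sup fun v => (Lagrange.basis V id v).natDegree) + 1 with hN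
  let φ : (V → ℝ) →ₗ[ℤ] (Fin N → ℝ) :=
    { toFun := fun g j => ∑ v : V, g v * δ v * (v : ℝ) ^ (j : ℕ)
      map_add' := fun g g' => by
        funext j
        simp only [Pi.add_apply, add_mul, Finset.sum_add_distrib]
      map_smul' := fun n g => by
        funext j
        simp only [Pi.smul_apply, smul_mul_assoc, Finset.smul_sum, RingHom.id_apply] }
  let c : (Fin N → ℤ) →ₗ[ℤ] (Fin N → ℝ) := (Int.castAddHom ℝ).toIntLinearMap.compLeft (Fin N)
  set B := Algebra.adjoin ℤ {x} with hB
  have hr : ∀ g : B, φ g ∈ LinearMap.range c := by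
    intro g
    have hg : (g : V → ℝ) ∈ (aeval x : ℤ[X] →ₐ[ℤ] (V → ℝ)).range := by
      rw [← Algebra.adjoin_singleton_eq_range_aeval]
      exact g.2
    obtain ⟨Q, hQ⟩ := hg
    choose M hM using fun j : Fin N => hI (Q * X ^ (j : ℕ))
    refine ⟨M, ?_⟩
    funext j
    show ((M j : ℤ) : ℝ) = ∑ v : V, (g : V → ℝ) v * δ v * (v : ℝ) ^ (j : ℕ)
    rw [← hM j, ← Finset.sum_coe_sort]
    refine Finset.sum_congr rfl fun v _ => ?_
    have e1 : (g : V → ℝ) v = (rl Q).eval (v : ℝ) := by
      rw [← hQ]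
      exact aeval_pi Q v
    rw [e1]
    simp only [rl, Polynomial.map_mul, Polynomial.map_pow, map_X, eval_mul, eval_pow, eval_X]
    ring
  let ψ : B →ₗ[ℤ] LinearMap.range c := (φ.comp B.toSubmodule.subtype).codRestrict _ hr
  have hψ : Function.Injective ψ := by
    rw [← LinearMap.ker_eq_bot, LinearMap.ker_eq_bot']
    intro g hg
    have h1 : φ g = 0 := congrArg Subtype.val hg
    have h2 : ∀ F : ℝ[X], F.natDegree < N → ∑ v : V, (g : V → ℝ) v * δ v * F.eval (v : ℝ) = 0 := by
      intro F hF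
      have h3 : ∀ j : Fin N, ∑ v : V, (g : V → ℝ) v * δ v * (v : ℝ) ^ (j : ℕ) = 0 := fun j => congrFun h1 j
      have h4 : ∀ v : V, (g : V → ℝ) v * δ v * F.eval (v : ℝ) =
          ∑ j : Fin N, F.coeff j * ((g : V → ℝ) v * δ v * (v : ℝ) ^ (j : ℕ)) := by
        intro v
        rw [eval_eq_sum_range' hF, Finset.mul_sum, ← Fin.sum_univ_eq_sum_range
          (fun j => (g : V → ℝ) v * δ v * (F.coeff j * (v : ℝ) ^ j))]
        refine Finset.sum_congr rfl fun j _ => ?_
        ring
      simp only [h4]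
      rw [Finset.sum_comm]
      refine Finset.sum_eq_zero fun j _ => ?_
      rw [← Finset.mul_sum, h3 j, mul_zero]
    have h5 : ∀ w : V, (g : V → ℝ) w = 0 := by
      intro w
      have h6 := h2 (Lagrange.basis V id (w : ℝ)) (by
        rw [hN]
        have : (Lagrange.basis V id (w : ℝ)).natDegree ≤ V.sup fun v => (Lagrange.basis V id v).natDegree :=
          Finset.le_sup (f := fun v => (Lagrange.basis V id v).natDegree) w.2
        omega)
      rw [Finset.sum_eq_single w] at h6
      · have e := Lagrange.eval_basis_self (s := V) (v := id) (i := (w : ℝ)) Function.injective_id.injOn w.2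
        simp only [id] at e
        have e' : eval (w : ℝ) (Lagrange.basis V id (w : ℝ)) = 1 := e
        rw [e', mul_one] at h6
        rcases mul_eq_zero.1 h6 with h | h
        · exact h
        · exact absurd h (hδ w w.2).ne'
      · intro v _ hvw
        have e := Lagrange.eval_basis_of_ne (s := V) (v := id) (i := (w : ℝ)) (j := (v : ℝ))
          (fun h => hvw (Subtype.ext h.symm)) v.2
        have e' : eval (v : ℝ) (Lagrange.basis V id (w : ℝ)) = 0 := e
        rw [e', mul_zero]
      · intro h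
        exact absurd (Finset.mem_univ _) h
    exact Subtype.ext (funext h5)
  have hfin : Module.Finite ℤ B := Module.Finite.of_injective ψ hψ
  intro v hv
  have h1 : IsIntegral ℤ (⟨x, Algebra.self_mem_adjoin_singleton ℤ x⟩ : B) :=
    (Algebra.IsIntegral.of_finite ℤ B).isIntegral _
  have h2 : IsIntegral ℤ x := h1.map B.val
  exact h2.map (Pi.evalAlgHom ℤ (fun _ : V => ℝ) ⟨v, hv⟩)

/-- they are all the zeros of a rational polynomial -/
theorem rational_coeffs (V : Finset ℝ) (δ : ℝ → ℝ) (hδ : ∀ v ∈ V, 0 < δ v) (m : ℕ → ℤ)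
    (hm : ∀ k : ℕ, ∑ v ∈ V, v ^ k * δ v = m k) (j : ℕ) :
    ∃ q : ℚ, (∏ v ∈ V, (X - Polynomial.C v)).coeff j = (q : ℝ) := by
  classical
  set F : ℝ[X] := ∏ v ∈ V, (X - Polynomial.C v) with hF
  have hFm : F.Monic := monic_prod_of_monic _ _ fun v _ => monic_X_sub_C v
  set N : ℕ := V.card with hN
  have hFd : F.natDegree = N := by
    rw [hF, natDegree_prod_of_monic _ _ fun v _ => monic_X_sub_C v]
    simp [hN]
  have hFv : ∀ v ∈ V, F.eval v = 0 := by
    intro v hv
    rw [hF, eval_prod]
    exact Finset.prod_eq_zero hv (by simp)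
  let G : Matrix (Fin (N + 1)) (Fin (N + 1)) ℚ := fun i k => (m (i + k) : ℚ)
  have hdet : (G.map (Rat.castHom ℝ)).det = 0 := by
    rw [← Matrix.exists_mulVec_eq_zero_iff]
    refine ⟨fun k => F.coeff k, ?_, ?_⟩
    · intro h0
      have h1 := congrFun h0 (Fin.last N)
      have h2 : F.coeff N = 1 := by rw [← hFd]; exact hFm.coeff_natDegree
      simp only [Fin.val_last, Pi.zero_apply] at h1
      rw [h2] at h1
      exact one_ne_zero h1
    · funext i
      simp only [Matrix.mulVec, dotProduct, Matrix.map_apply, Pi.zero_apply]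
      have h1 : ∀ k : Fin (N + 1), (Rat.castHom ℝ) (G i k) * F.coeff k =
          ∑ v ∈ V, v ^ (i : ℕ) * δ v * (F.coeff k * v ^ (k : ℕ)) := by
        intro k
        have e : (Rat.castHom ℝ) (G i k) = ((m (i + k) : ℤ) : ℝ) := by simp [G]
        rw [e, ← hm, Finset.sum_mul]
        refine Finset.sum_congr rfl fun v _ => ?_
        rw [pow_add]
        ring
      simp only [h1]
      rw [Finset.sum_comm]
      refine Finset.sum_eq_zero fun v hv => ?_
      rw [← Finset.mul_sum, Fin.sum_univ_eq_sum_range (fun k => F.coeff k * v ^ k),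
        ← eval_eq_sum_range' (by omega : F.natDegree < N + 1), hFv v hv, mul_zero]
  have hdetq : G.det = 0 := by
    have h1 : (Rat.castHom ℝ) G.det = 0 := by
      rw [RingHom.map_det]
      exact hdet
    exact (map_eq_zero (Rat.castHom ℝ)).1 h1
  obtain ⟨c, hc0, hc⟩ := Matrix.exists_mulVec_eq_zero_iff.2 hdetq
  set T : ℝ[X] := ∑ k : Fin (N + 1), Polynomial.C (c k : ℝ) * X ^ (k : ℕ) with hT
  have hTc : ∀ k : Fin (N + 1), T.coeff k = (c k : ℝ) := by
    intro k
    rw [hT, finsetSum_coeff, Finset.sum_eq_single k]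
    · simp
    · intro i _ hik
      rw [coeff_C_mul, coeff_X_pow, if_neg (fun h => hik (Fin.ext h.symm)), mul_zero]
    · intro h
      exact absurd (Finset.mem_univ _) h
  have hTd : T.natDegree ≤ N := by
    rw [hT]
    refine natDegree_sum_le_of_forall_le _ _ fun k _ => ?_
    refine (natDegree_C_mul_X_pow_le _ _).trans ?_
    omega
  have hTe : ∀ v : ℝ, T.eval v = ∑ k : Fin (N + 1), (c k : ℝ) * v ^ (k : ℕ) := by
    intro v
    rw [hT, eval_finsetSum]
    simp
  have hT0 : T ≠ 0 := by
    intro h0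
    apply hc0
    funext k
    have h1 := hTc k
    rw [h0, coeff_zero] at h1
    have : (c k : ℝ) = ((0 : ℚ) : ℝ) := by rw [← h1]; simp
    exact_mod_cast this
  have hTv : ∀ v ∈ V, T.eval v = 0 := by
    have h1 : ∑ v ∈ V, T.eval v ^ 2 * δ v = 0 := by
      have h2 : ∀ v : ℝ, T.eval v ^ 2 * δ v =
          ∑ i : Fin (N + 1), ∑ k : Fin (N + 1), (c i : ℝ) * (c k : ℝ) * (v ^ ((i : ℕ) + k) * δ v) := by
        intro v
        rw [pow_two, hTe v, Finset.sum_mul_sum, Finset.sum_mul]
        refine Finset.sum_congr rfl fun i _ => ?_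
        rw [Finset.sum_mul]
        refine Finset.sum_congr rfl fun k _ => ?_
        rw [pow_add]
        ring
      simp only [h2]
      rw [Finset.sum_comm]
      refine Finset.sum_eq_zero fun i _ => ?_
      rw [Finset.sum_comm]
      have h3 : ∀ k : Fin (N + 1), ∑ v ∈ V, (c i : ℝ) * (c k : ℝ) * (v ^ ((i : ℕ) + k) * δ v) =
          (c i : ℝ) * ((G i k : ℚ) * (c k : ℚ) : ℚ) := by
        intro k
        rw [← Finset.mul_sum, hm]
        simp only [G]
        push_cast
        ring
      simp only [h3]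
      rw [← Finset.mul_sum]
      have h4 : ∑ k, G i k * c k = 0 := by
        have := congrFun hc i
        simpa [Matrix.mulVec, dotProduct] using this
      have h5 : ∑ k, ((G i k * c k : ℚ) : ℝ) = ((∑ k, G i k * c k : ℚ) : ℝ) := by push_cast; rfl
      rw [h5, h4, Rat.cast_zero, mul_zero]
    intro v hv
    have h2 := (Finset.sum_eq_zero_iff_of_nonneg (fun v hv => mul_nonneg (sq_nonneg _) (hδ v hv).le)).1 h1 v hv
    rcases mul_eq_zero.1 h2 with h | h
    · exact pow_eq_zero_iff (two_ne_zero) |>.1 h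
    · exact absurd h (hδ v hv).ne'
  have hdvd : F ∣ T := by
    rw [hF]
    refine Finset.prod_dvd_of_coprime ?_ fun v hv => dvd_iff_isRoot.2 (hTv v hv)
    intro x _ y _ hxy
    exact (pairwise_coprime_X_sub_C (s := fun z : ℝ => z) Function.injective_id) hxy
  obtain ⟨R, hR⟩ := hdvd
  have hR0 : R ≠ 0 := fun h => hT0 (by rw [hR, h, mul_zero])
  have hRd : R.natDegree = 0 := by
    have h1 : T.natDegree = F.natDegree + R.natDegree := by
      rw [hR]
      exact natDegree_mul hFm.ne_zero hR0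
    omega
  obtain ⟨lam, hlam⟩ := natDegree_eq_zero.1 hRd
  have hcoef : ∀ k : ℕ, T.coeff k = F.coeff k * lam := by
    intro k
    rw [hR, ← hlam, coeff_mul_C]
  have hl : lam = (c (Fin.last N) : ℝ) := by
    have h1 := hTc (Fin.last N)
    have h2 := hcoef N
    have h3 : F.coeff N = 1 := by rw [← hFd]; exact hFm.coeff_natDegree
    rw [h3, one_mul] at h2
    rw [← h2]
    exact h1
  have hl0 : lam ≠ 0 := by
    intro h0
    apply hR0
    rw [← hlam, h0, Polynomial.C_0]
  by_cases hj : j < N + 1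
  · refine ⟨c ⟨j, hj⟩ / c (Fin.last N), ?_⟩
    have h1 := hTc ⟨j, hj⟩
    have h2 := hcoef j
    simp only at h1
    rw [h1] at h2
    push_cast
    rw [← hl, h2]
    field_simp
  · refine ⟨0, ?_⟩
    rw [coeff_eq_zero_of_natDegree_lt (by omega)]
    simp

/-- the coefficients are algebraic integers -/
theorem integral_coeffs (V : Finset ℝ) (h : ∀ v ∈ V, IsIntegral ℤ v) (j : ℕ) :
    IsIntegral ℤ ((∏ v ∈ V, (X - Polynomial.C v)).coeff j) := by
  classical
  induction V using Finset.induction_on generalizing j with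
  | empty =>
    rw [Finset.prod_empty, coeff_one]
    split_ifs
    · exact isIntegral_one
    · exact isIntegral_zero
  | insert a s ha ih =>
    have ih' := fun j => ih (fun v hv => h v (Finset.mem_insert_of_mem hv)) j
    rw [Finset.prod_insert ha, sub_mul, coeff_sub]
    refine IsIntegral.sub ?_ ?_
    · rcases j with _ | j
      · rw [mul_comm, coeff_mul_X_zero]
        exact isIntegral_zero
      · rw [coeff_X_mul]
        exact ih' j
    · rw [coeff_C_mul]
      exact (h a (Finset.mem_insert_self a s)).mul (ih' j)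

theorem int_poly (V : Finset ℝ) (δ : ℝ → ℝ) (hδ : ∀ v ∈ V, 0 < δ v)
    (hI : ∀ Q : ℤ[X], ∃ M : ℤ, ∑ v ∈ V, (rl Q).eval v * δ v = M) :
    ∃ Q : ℤ[X], rl Q = ∏ v ∈ V, (X - Polynomial.C v) := by
  choose m hm using fun k : ℕ => hI (X ^ k)
  have hm' : ∀ k : ℕ, ∑ v ∈ V, v ^ k * δ v = m k := by
    intro k
    rw [← hm k]
    simp [rl]
  have h1 := integral_points V δ hδ hI
  have h2 : (∏ v ∈ V, (X - Polynomial.C v)) ∈ lifts (Int.castRingHom ℝ) := by
    rw [lifts_iff_coeff_lifts]
    intro j
    obtain ⟨q, hq⟩ := rational_coeffs V δ hδ m hm' j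
    have h3 := integral_coeffs V h1 j
    rw [hq] at h3 ⊢
    have h4 : IsIntegral ℤ q := by
      have : (q : ℝ) = algebraMap ℚ ℝ q := rfl
      rw [this] at h3
      exact (isIntegral_algebraMap_iff (algebraMap ℚ ℝ).injective).1 h3
    obtain ⟨z, hz⟩ := IsIntegrallyClosed.isIntegral_iff.1 h4
    refine ⟨z, ?_⟩
    rw [← hz]
    simp
  obtain ⟨Q, hQ⟩ := h2
  exact ⟨Q, hQ⟩

end Pool.Agent.Helper812_TC
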