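import Mathlib

/-! An interval of length four without an open subinterval has capacity less than one. -/

set_option autoImplicit false

open Polynomial

namespace Pool.Agent.Helper812_TC

/-- the monic Chebyshev polynomial, `D n (2 cos θ) = 2 cos (n θ)` -/
noncomputable abbrev D (n : ℕ) : ℝ[X] := Polynomial.Chebyshev.C ℝ (n : ℤ)

theorem D_add_two (n : ℕ) : D (n + 2) = X * D (n + 1) - D n := by
  have := Polynomial.Chebyshev.C_add_two ℝ (n : ℤ)
  unfold D
  push_cast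
  exact this

theorem D_monic : ∀ n : ℕ, (D (n + 1)).Monic ∧ (D (n + 1)).natDegree = n + 1 := by
  intro n
  induction n using Nat.strong_induction_on with
  | _ n ih =>
    rcases n with _ | _ | n
    · have : D (0 + 1) = X := by
        unfold D
        simp
      rw [this]
      exact ⟨monic_X, by simp⟩
    · have : D (0 + 1 + 1) = X ^ 2 - 2 := by
        unfold D
        have := Polynomial.Chebyshev.C_two ℝ
        push_cast
        exact this
      rw [this]
      have h1 : (X ^ 2 - 2 : ℝ[X]) = X ^ 2 - Polynomial.C 2 := by rw [map_ofNat]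
      rw [h1]
      exact ⟨monic_X_pow_sub_C 2 (by norm_num), by simp⟩
    · have h1 := ih n (by omega)
      have h2 := ih (n + 1) (by omega)
      have e : D (n + 1 + 1 + 1) = X * D (n + 1 + 1) - D (n + 1) := D_add_two (n + 1)
      rw [e]
      have h3 : (X * D (n + 1 + 1)).Monic := monic_X.mul h2.1
      have h4 : (X * D (n + 1 + 1)).natDegree = n + 3 := by
        rw [monic_X.natDegree_mul h2.1, natDegree_X, h2.2]
        omega
      have hlt : (D (n + 1)).degree < (X * D (n + 1 + 1)).degree := by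
        rw [degree_eq_natDegree h1.1.ne_zero, degree_eq_natDegree h3.ne_zero, h1.2, h4]
        exact_mod_cast (by omega : n + 1 < n + 3)
      refine ⟨h3.sub_of_left hlt, ?_⟩
      rw [natDegree_sub_eq_left_of_natDegree_lt, h4]
      rw [h1.2, h4]
      omega

theorem D_cos (n : ℕ) (θ : ℝ) : (D n).eval (2 * Real.cos θ) = 2 * Real.cos (n * θ) := by
  have := Polynomial.Chebyshev.C_two_mul_real_cos θ (n : ℤ)
  unfold D
  rw [this]
  push_cast
  rfl

theorem abs_D_le (n : ℕ) (x : ℝ) (hx : |x| ≤ 2) : |(D n).eval x| ≤ 2 := by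
  have h1 := abs_le.1 hx
  have e : x = 2 * Real.cos (Real.arccos (x / 2)) := by
    rw [Real.cos_arccos (by linarith) (by linarith)]
    ring
  rw [e, D_cos, abs_mul, abs_two]
  have := Real.abs_cos_le_one (n * Real.arccos (x / 2))
  linarith

/-- many roots near a point -/
theorem roots_near (x0 : ℝ) (hx0 : |x0| ≤ 2) (δ : ℝ) (hδ : 0 < δ) (k : ℕ) :
    ∃ (n : ℕ) (W : Finset ℝ), W.card = 2 * k ∧ (∀ γ ∈ W, |γ - x0| < δ ∧ (D (n + 1)).eval γ = 0) := by
  have hpi := Real.pi_pos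
  obtain ⟨n0, hn0⟩ := exists_nat_gt (Real.pi * (2 * k + 2) * 2 / δ)
  set n : ℕ := n0 + 2 * k with hn
  set N : ℕ := n + 1 with hN
  have hNpos : (0 : ℝ) < N := by rw [hN]; positivity
  have hNbig : Real.pi / N * (2 * k + 2) * 2 < δ := by
    have h1 : Real.pi * (2 * k + 2) * 2 / δ < N := by
      refine hn0.trans_le ?_
      rw [hN, hn]
      push_cast
      have : (0 : ℝ) ≤ k := Nat.cast_nonneg k
      linarith
    rw [div_lt_iff₀ hδ] at h1
    rw [div_mul_eq_mul_div, div_mul_eq_mul_div, div_lt_iff₀ hNpos]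
    linarith
  set θ0 : ℝ := Real.arccos (x0 / 2) with hθ0
  have hx := abs_le.1 hx0
  have e0 : x0 = 2 * Real.cos θ0 := by
    rw [hθ0, Real.cos_arccos (by linarith) (by linarith)]
    ring
  have hθ00 : 0 ≤ θ0 := Real.arccos_nonneg _
  have hθ01 : θ0 ≤ Real.pi := Real.arccos_le_pi _
  set a : ℝ := N * θ0 / Real.pi with ha
  have ha0 : 0 ≤ a := by positivity
  have haN : a ≤ N := by
    rw [ha, div_le_iff₀ hpi]
    exact mul_le_mul_of_nonneg_left hθ01 hNpos.le
  set j0 : ℕ := ⌊a⌋₊ with hj0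
  have hj0a : (j0 : ℝ) ≤ a := Nat.floor_le ha0
  have hj0b : a < j0 + 1 := Nat.lt_floor_add_one a
  have hj0N : j0 ≤ N := by
    have : (j0 : ℝ) ≤ N := hj0a.trans haN
    exact_mod_cast this
  set j1 : ℕ := min j0 (N - 2 * k) with hj1
  have hj1a : j1 ≤ j0 := min_le_left _ _
  have hj1b : j1 ≤ N - 2 * k := min_le_right _ _
  have hj1c : j0 ≤ j1 + 2 * k := by
    rw [hj1]
    rcases le_total j0 (N - 2 * k) with h | h
    · rw [min_eq_left h]; omega
    · rw [min_eq_right h]; omega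
  have hNk : 2 * k ≤ N := by omega
  let τ : ℕ → ℝ := fun i => (2 * ((j1 + i : ℕ) : ℝ) + 1) * Real.pi / (2 * N)
  have hτ0 : ∀ i < 2 * k, 0 ≤ τ i ∧ τ i ≤ Real.pi := by
    intro i hi
    constructor
    · simp only [τ]; positivity
    · simp only [τ]
      rw [div_le_iff₀ (by positivity)]
      have : ((j1 + i : ℕ) : ℝ) + 1 ≤ N := by exact_mod_cast (by omega : j1 + i + 1 ≤ N)
      nlinarith
  have hinj : Set.InjOn (fun i => 2 * Real.cos (τ i)) (Finset.range (2 * k) : Set ℕ) := by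
    intro i hi i' hi' h
    have hi2 := Finset.mem_range.1 (Finset.mem_coe.1 hi)
    have hi2' := Finset.mem_range.1 (Finset.mem_coe.1 hi')
    have h1 : Real.cos (τ i) = Real.cos (τ i') := by
      have : 2 * Real.cos (τ i) = 2 * Real.cos (τ i') := h
      linarith
    have h2 := Real.injOn_cos (hτ0 i hi2) (hτ0 i' hi2') h1
    simp only [τ] at h2
    rw [div_left_inj' (by positivity)] at h2
    have h3 := mul_right_cancel₀ hpi.ne' h2
    have h4 : ((j1 + i : ℕ) : ℝ) = ((j1 + i' : ℕ) : ℝ) := by linarith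
    have h5 : j1 + i = j1 + i' := by exact_mod_cast h4
    omega
  refine ⟨n, (Finset.range (2 * k)).image (fun i => 2 * Real.cos (τ i)), ?_, ?_⟩
  · rw [Finset.card_image_of_injOn hinj, Finset.card_range]
  · intro γ hγ
    obtain ⟨i, hi, rfl⟩ := Finset.mem_image.1 hγ
    have hi2 := Finset.mem_range.1 hi
    constructor
    · rw [e0, ← mul_sub, abs_mul, abs_two]
      have h1 := Real.abs_cos_sub_cos_le (τ i) θ0
      have h2 : |τ i - θ0| ≤ Real.pi / N * (2 * k + 2) := by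
        have e1 : τ i - θ0 = Real.pi / N * ((j1 + i : ℕ) + 1 / 2 - a) := by
          simp only [τ, ha]
          field_simp
        rw [e1, abs_mul, abs_of_nonneg (by positivity : 0 ≤ Real.pi / N)]
        refine mul_le_mul_of_nonneg_left ?_ (by positivity)
        have c1 : (j1 : ℝ) ≤ j0 := by exact_mod_cast hj1a
        have c2 : (j0 : ℝ) ≤ j1 + 2 * k := by exact_mod_cast hj1c
        have c3 : (i : ℝ) + 1 ≤ 2 * k := by exact_mod_cast (by omega : i + 1 ≤ 2 * k)
        have c4 : (0 : ℝ) ≤ i := Nat.cast_nonneg i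
        rw [abs_le]
        push_cast
        constructor <;> linarith
      linarith
    · have h1 := D_cos (n + 1) (τ i)
      rw [h1]
      have e1 : ((n + 1 : ℕ) : ℝ) * τ i = (((j1 + i : ℕ) : ℤ) : ℝ) * Real.pi + Real.pi / 2 := by
        simp only [τ]
        have : ((n + 1 : ℕ) : ℝ) = N := by rw [hN]
        rw [this]
        field_simp
        push_cast
        rfl
      rw [e1, Real.cos_add_pi_div_two, Real.sin_int_mul_pi]
      simp

theorem gap0 (x0 h : ℝ) (hx0 : |x0| ≤ 2) (hh : 0 < h) :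
    ∃ P : ℝ[X], P.Monic ∧ ∃ ρ < (1 : ℝ), ∀ x : ℝ, |x| ≤ 2 → h ≤ |x - x0| → |P.eval x| ≤ ρ := by
  by_cases h4 : h ≤ 4
  swap
  · refine ⟨X, monic_X, 0, zero_lt_one, fun x hx hx2 => ?_⟩
    exfalso
    have h1 := abs_le.1 hx
    have h2 := abs_le.1 hx0
    have : |x - x0| ≤ 4 := abs_le.2 ⟨by linarith, by linarith⟩
    linarith
  set lam : ℝ := 1 - h ^ 2 / 32 with hlam
  have hl0 : 0 ≤ lam := by rw [hlam]; nlinarith
  have hl1 : lam < 1 := by rw [hlam]; nlinarith [sq_pos_of_pos hh]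
  obtain ⟨k, hk⟩ := exists_pow_lt_of_lt_one (show (0 : ℝ) < 1 / 2 by norm_num) hl1
  obtain ⟨n, W, hW, hWr⟩ := roots_near x0 hx0 (h ^ 2 / 16) (by positivity) k
  have hdvd : (∏ γ ∈ W, (X - Polynomial.C γ)) ∣ D (n + 1) := by
    refine Finset.prod_dvd_of_coprime ?_ fun γ hγ => dvd_iff_isRoot.2 (hWr γ hγ).2
    intro x _ y _ hxy
    exact (pairwise_coprime_X_sub_C (s := fun z : ℝ => z) Function.injective_id) hxy
  obtain ⟨R, hR⟩ := hdvd
  have hWm : (∏ γ ∈ W, (X - Polynomial.C γ)).Monic := monic_prod_of_monic _ _ fun γ _ => monic_X_sub_C γ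
  have hRm : R.Monic := hWm.of_mul_monic_left (hR ▸ (D_monic n).1)
  have hq : ((X - Polynomial.C x0) ^ 2 - Polynomial.C (h ^ 2)).Monic := by
    refine ((monic_X_sub_C x0).pow 2).sub_of_left ?_
    rw [degree_pow, degree_X_sub_C]
    refine (degree_C_le).trans_lt ?_
    norm_num
  refine ⟨((X - Polynomial.C x0) ^ 2 - Polynomial.C (h ^ 2)) ^ k * R, (hq.pow k).mul hRm, 2 * lam ^ k, by linarith,
    fun x hx hx2 => ?_⟩
  set y : ℝ := |x - x0| with hy
  have hy4 : y ≤ 4 := by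
    have h1 := abs_le.1 hx
    have h2 := abs_le.1 hx0
    exact abs_le.2 ⟨by linarith, by linarith⟩
  have hy0 : 0 < y := hh.trans_le hx2
  have hysq : (x - x0) ^ 2 = y ^ 2 := by rw [hy, sq_abs]
  rw [eval_mul, eval_pow, abs_mul, abs_pow]
  have e1 : |eval x ((X - Polynomial.C x0) ^ 2 - Polynomial.C (h ^ 2))| = y ^ 2 - h ^ 2 := by
    rw [eval_sub, eval_pow, eval_sub, eval_X, eval_C, eval_C, hysq, abs_of_nonneg]
    nlinarith
  rw [e1]
  have hδ : 0 < y - h ^ 2 / 16 := by nlinarith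
  have c1 : y ^ 2 - h ^ 2 ≤ lam * (y - h ^ 2 / 16) ^ 2 := by
    have d1 : y ^ 2 - h ^ 2 / 2 ≤ (y - h ^ 2 / 16) ^ 2 := by nlinarith [sq_nonneg (h ^ 2 / 16), sq_nonneg h]
    have d2 : y ^ 2 - h ^ 2 ≤ lam * (y ^ 2 - h ^ 2 / 2) := by
      rw [hlam]
      have d3 : y ^ 2 - h ^ 2 / 2 ≤ 16 := by nlinarith [sq_nonneg h]
      nlinarith [sq_nonneg h]
    exact d2.trans (mul_le_mul_of_nonneg_left d1 hl0)
  have c2 : (y - h ^ 2 / 16) ^ (2 * k) ≤ ∏ γ ∈ W, |x - γ| := by
    rw [← hW, ← Finset.prod_const]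
    refine Finset.prod_le_prod (fun γ _ => hδ.le) fun γ hγ => ?_
    have := (hWr γ hγ).1
    have t := abs_sub_abs_le_abs_sub (x - x0) (γ - x0)
    have e : x - x0 - (γ - x0) = x - γ := by ring
    rw [e] at t
    linarith
  have c3 : |eval x (D (n + 1))| = (∏ γ ∈ W, |x - γ|) * |eval x R| := by
    rw [hR, eval_mul, abs_mul, eval_prod, Finset.abs_prod]
    simp
  have c4 := abs_D_le (n + 1) x hx
  have hyh : 0 ≤ y ^ 2 - h ^ 2 := by nlinarith
  calc (y ^ 2 - h ^ 2) ^ k * |eval x R|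
      ≤ (lam * (y - h ^ 2 / 16) ^ 2) ^ k * |eval x R| :=
        mul_le_mul_of_nonneg_right (pow_le_pow_left₀ hyh c1 k) (abs_nonneg _)
    _ = lam ^ k * ((y - h ^ 2 / 16) ^ (2 * k) * |eval x R|) := by rw [mul_pow, ← pow_mul]; ring
    _ ≤ lam ^ k * ((∏ γ ∈ W, |x - γ|) * |eval x R|) :=
        mul_le_mul_of_nonneg_left (mul_le_mul_of_nonneg_right c2 (abs_nonneg _)) (pow_nonneg hl0 k)
    _ ≤ lam ^ k * 2 := mul_le_mul_of_nonneg_left (c3 ▸ c4) (pow_nonneg hl0 k)
    _ = 2 * lam ^ k := mul_comm _ _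

theorem gap (a x0 h : ℝ) (hx0 : x0 ∈ Set.Icc a (a + 4)) (hh : 0 < h) :
    ∃ P : ℝ[X], P.Monic ∧ ∃ ρ < (1 : ℝ), ∀ x ∈ Set.Icc a (a + 4), h ≤ |x - x0| → |P.eval x| ≤ ρ := by
  obtain ⟨P, hP, ρ, hρ, H⟩ := gap0 (x0 - (a + 2)) h (abs_le.2 ⟨by linarith [hx0.1], by linarith [hx0.2]⟩) hh
  refine ⟨P.comp (X - Polynomial.C (a + 2)), hP.comp_X_sub_C _, ρ, hρ, fun x hx hx2 => ?_⟩
  rw [eval_comp, eval_sub, eval_X, eval_C]
  refine H _ (abs_le.2 ⟨by linarith [hx.1], by linarith [hx.2]⟩) ?_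
  have : x - (a + 2) - (x0 - (a + 2)) = x - x0 := by ring
  rw [this]
  exact hx2

end Pool.Agent.Helper812_TC
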