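import Pool.Agent.Helper812_TC.Main

/-! The limiting distribution, and the traces of arbitrary representations. -/

set_option autoImplicit false

open Filter Topology Polynomial Pool.Agent.H406.EDG

namespace Pool.Agent.Helper812_TC

variable {S : Finset ℕ}

theorem HM_limit {f : Pr S → ℝ} (hf : Bd f)
    (h : ∀ ε : ℝ, 0 < ε → ∃ (g : Pr S → ℝ) (M : ℝ), Bd g ∧ HM g M ∧ ∀ p, |f p - g p| ≤ ε) : ∃ M : ℝ, HM f M := by
  choose! g M hg hM hfg using h
  set e : ℕ → ℝ := fun n => 1 / ((n : ℝ) + 1) with he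
  have he0 : ∀ n, 0 < e n := fun n => Nat.one_div_pos_of_nat
  have hclose : ∀ n k : ℕ, M (e n) ≤ M (e k) + (e n + e k) := by
    intro n k
    refine HM.le (hg _ (he0 n)) ((hg _ (he0 k)).add (Bd.const _)) (hM _ (he0 n))
      (HM.add (hg _ (he0 k)) (Bd.const _) (hM _ (he0 k)) (HM_const _)) fun p => ?_
    have h1 := abs_le.1 (hfg _ (he0 n) p)
    have h2 := abs_le.1 (hfg _ (he0 k) p)
    linarith
  have hmono : ∀ N n : ℕ, N ≤ n → e n ≤ e N := fun N n h => by
    simp only [he]
    exact Nat.one_div_le_one_div h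
  have hcs : CauchySeq fun n => M (e n) := by
    refine cauchySeq_of_le_tendsto_0 (fun N => 2 * e N) (fun n m N hn hm => ?_) ?_
    · rw [Real.dist_eq, abs_le]
      have h1 := hclose n m
      have h2 := hclose m n
      have h3 := hmono N n hn
      have h4 := hmono N m hm
      constructor <;> linarith
    · have := (tendsto_one_div_add_atTop_nhds_zero_nat (𝕜 := ℝ)).const_mul 2
      rw [mul_zero] at this
      exact this
  obtain ⟨L, hL⟩ := cauchySeq_tendsto_of_complete hcs
  refine ⟨L, ?_⟩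
  rw [HM, Metric.tendsto_nhds]
  intro ε hε
  have h1 : ∀ᶠ n : ℕ in atTop, |M (e n) - L| < ε / 4 := by
    have := Metric.tendsto_nhds.1 hL (ε / 4) (by linarith)
    simpa only [Real.dist_eq] using this
  have h2 : ∀ᶠ n : ℕ in atTop, e n < ε / 8 :=
    (tendsto_one_div_add_atTop_nhds_zero_nat (𝕜 := ℝ)).eventually (gt_mem_nhds (by linarith))
  obtain ⟨n, h3, h4⟩ := (h1.and h2).exists
  have h5 : ∀ᶠ σ : ℝ in 𝓝[>] 1, |sm (g (e n)) σ / Lam σ - M (e n)| < ε / 4 := by
    have := Metric.tendsto_nhds.1 (hM _ (he0 n)) (ε / 4) (by linarith)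
    simpa only [Real.dist_eq] using this
  have h6 : ∀ᶠ σ : ℝ in 𝓝[>] 1, sm (fun _ : Pr S => (1 : ℝ)) σ / Lam σ < 2 :=
    (HM_one (S := S)).eventually (gt_mem_nhds (by norm_num))
  filter_upwards [h5, h6, gt_one, Lam_pos] with σ h7 h8 hσ hLp
  rw [Real.dist_eq]
  have hd : |sm f σ - sm (g (e n)) σ| ≤ e n * sm (fun _ : Pr S => (1 : ℝ)) σ := by
    have hB := hg _ (he0 n)
    have u1 : sm f σ ≤ sm (fun p => g (e n) p + e n * 1) σ :=
      sm_mono hf (hB.add (Bd.const _)) (fun p => by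
        have := abs_le.1 (hfg _ (he0 n) p); linarith) hσ
    have u2 : sm (g (e n)) σ ≤ sm (fun p => f p + e n * 1) σ :=
      sm_mono hB (hf.add (Bd.const _)) (fun p => by
        have := abs_le.1 (hfg _ (he0 n) p); linarith) hσ
    rw [sm_add hB (Bd.const _) hσ, sm_smul] at u1
    rw [sm_add hf (Bd.const _) hσ, sm_smul] at u2
    rw [abs_le]
    constructor <;> linarith
  have hd2 : |sm f σ / Lam σ - sm (g (e n)) σ / Lam σ| ≤ ε / 4 := by
    rw [← sub_div, abs_div, abs_of_pos hLp, div_le_iff₀ hLp]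
    rw [div_lt_iff₀ hLp] at h8
    have : e n * sm (fun _ : Pr S => (1 : ℝ)) σ ≤ ε / 8 * (2 * Lam σ) :=
      mul_le_mul h4.le h8.le (tsum_nonneg fun p => mul_nonneg zero_le_one (ww_pos σ p).le) (by linarith)
    linarith
  have t1 : |sm f σ / Lam σ - L| ≤ |sm f σ / Lam σ - sm (g (e n)) σ / Lam σ| +
      |sm (g (e n)) σ / Lam σ - M (e n)| + |M (e n) - L| := by
    have e1 : sm f σ / Lam σ - L = (sm f σ / Lam σ - sm (g (e n)) σ / Lam σ) +
      (sm (g (e n)) σ / Lam σ - M (e n)) + (M (e n) - L) := by ring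
    rw [e1]
    exact (abs_add_le _ _).trans (by gcongr; exact abs_add_le _ _)
  linarith

/-- the values of `t` have a limiting distribution -/
theorem cont_mean {t : Pr S → ℝ} (htb : Bd t) (HI : ∀ Q : ℤ[X], ∃ M : ℤ, HM (fun p => (rl Q).eval (t p)) M)
    (g : ℝ → ℝ) (hg : Continuous g) : ∃ M : ℝ, HM (fun p => g (t p)) M := by
  obtain ⟨B, hB⟩ := id htb
  have hbd : Bd fun p => g (t p) := by
    obtain ⟨C, hC⟩ := isCompact_Icc.exists_bound_of_continuousOn (s := Set.Icc (-B) B) hg.continuousOn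
    exact ⟨C, fun p => hC _ (abs_le.1 (hB p))⟩
  refine HM_limit hbd fun ε hε => ?_
  obtain ⟨F, hF⟩ := exists_polynomial_near_of_continuousOn (-B) B g hg.continuousOn ε hε
  obtain ⟨M, hM⟩ := real_mean htb HI F
  refine ⟨fun p => F.eval (t p), M, htb.poly F, hM, fun p => ?_⟩
  have := hF (t p) (abs_le.1 (hB p))
  rw [abs_sub_comm]
  exact this.le

theorem not_finite_of_large {t : Pr S → ℝ} (h : ∀ P : ℝ[X], P.Monic → ∃ x ∈ Lim t, 1 ≤ |P.eval x|) :
    (Lim t).Infinite := by
  intro hfin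
  obtain ⟨x, hx, h1⟩ := h (∏ v ∈ hfin.toFinset, (X - Polynomial.C v)) (monic_prod_of_monic _ _ fun v _ => monic_X_sub_C v)
  rw [eval_prod, Finset.prod_eq_zero (i := x) (by simpa using hx) (by simp)] at h1
  norm_num at h1

/-- large values of nonnegative functions -/
theorem large_values {t : Pr S → ℝ} (htb : Bd t) (ht0 : ∀ p, 0 ≤ t p)
    (HI : ∀ Q : ℤ[X], ∃ M : ℤ, HM (fun p => (rl Q).eval (t p)) M) (hinf : (Lim t).Infinite) (c : ℝ) (hc : c < 4) :
    ¬ Nl {p | c < t p} := by
  intro hN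
  have hsub : Lim t ⊆ Set.Icc 0 (max c 0) := by
    intro x hx
    constructor
    · by_contra h
      push Not at h
      refine hx (-x) (by linarith) ?_
      have e : {p | |t p - x| < -x} = ∅ := by
        ext p
        simp only [Set.mem_ofPred_eq, Set.mem_empty_iff_false, iff_false, not_lt]
        rw [abs_of_nonneg (by linarith [ht0 p])]
        linarith [ht0 p]
      rw [e]
      exact Nl.empty
    · by_contra h
      push Not at h
      have h1 : c < x := (le_max_left _ _).trans_lt h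
      refine hx (x - c) (by linarith) (hN.mono fun p hp => ?_)
      have h2 : |t p - x| < x - c := hp
      have h3 := abs_lt.1 h2
      show c < t p
      linarith
  have h4 := rigid htb HI hinf 0 (fun x hx => ⟨(hsub hx).1, (hsub hx).2.trans (by
    rw [zero_add]; exact max_le hc.le (by norm_num))⟩)
  have h5 : (4 : ℝ) ∈ Lim t := by
    rw [h4]
    constructor <;> norm_num
  have h6 := (hsub h5).2
  rcases le_max_iff.1 h6 with h | h <;> linarith

end Pool.Agent.Helper812_TC
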