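import Pool.Agent.Helper812_TC.Finite

/-! The limit values of a real virtual character: a finite set of zeros of an integer polynomial or a set of
capacity at least one. -/

set_option autoImplicit false

open Filter Topology Polynomial Pool.Agent.H406.EDG

namespace Pool.Agent.Helper812_TC

variable {S : Finset ℕ}

theorem HM_zero' {f : Pr S → ℝ} (hf : Bd f) (h : ∀ ε : ℝ, 0 < ε → Nl {p | ε < |f p|}) : HM f 0 := by
  obtain ⟨B, hB⟩ := hf
  have hB0 : ∀ p, |f p| ≤ |B| := fun p => (hB p).trans (le_abs_self B)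
  have key : ∀ ε : ℝ, 0 < ε → ∀ᶠ σ : ℝ in 𝓝[>] 1, |sm f σ / Lam σ| < ε := by
    intro ε hε
    have h1 := HM.add (Bd.const (S := S) (ε / 2)) ((Bd.ind {p | ε / 2 < |f p|}).smul |B|) (HM_const (ε / 2))
      (HM.smul (h (ε / 2) (by linarith)) |B|)
    rw [mul_zero, add_zero] at h1
    have h2 : ∀ᶠ σ : ℝ in 𝓝[>] 1, sm (fun p => ε / 2 + |B| * ind {p | ε / 2 < |f p|} p) σ / Lam σ < ε :=
      h1.eventually (gt_mem_nhds (by linarith))
    have hle : ∀ p, |f p| ≤ ε / 2 + |B| * ind {p | ε / 2 < |f p|} p := by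
      intro p
      by_cases h3 : p ∈ {p | ε / 2 < |f p|}
      · have e : ind {p | ε / 2 < |f p|} p = 1 := Set.indicator_of_mem h3 _
        rw [e]
        linarith [hB0 p]
      · have e : ind {p | ε / 2 < |f p|} p = 0 := Set.indicator_of_notMem h3 _
        rw [e]
        have h4 : ¬ ε / 2 < |f p| := h3
        linarith
    have hg := (Bd.const (S := S) (ε / 2)).add ((Bd.ind {p | ε / 2 < |f p|}).smul |B|)
    filter_upwards [h2, gt_one, Lam_pos] with σ h3 hσ hL
    refine lt_of_le_of_lt ?_ h3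
    rw [abs_div, abs_of_pos hL]
    refine div_le_div_of_nonneg_right ?_ hL.le
    rw [abs_le]
    constructor
    · rw [neg_le, ← neg_one_mul, ← sm_smul]
      exact sm_mono (Bd.smul ⟨B, hB⟩ _) hg (fun p => by
        rw [neg_one_mul]
        exact (neg_le_abs _).trans (hle p)) hσ
    · exact sm_mono ⟨B, hB⟩ hg (fun p => (le_abs_self _).trans (hle p)) hσ
  rw [HM, Metric.tendsto_nhds]
  intro ε hε
  filter_upwards [key ε hε] with σ h1
  rw [Real.dist_eq, sub_zero]
  exact h1

/-- all real polynomials in `t` have mean values -/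
theorem real_mean {t : Pr S → ℝ} (htb : Bd t) (HI : ∀ Q : ℤ[X], ∃ M : ℤ, HM (fun p => (rl Q).eval (t p)) M)
    (F : ℝ[X]) : ∃ M : ℝ, HM (fun p => F.eval (t p)) M := by
  choose m hm using fun k : ℕ => HI (X ^ k)
  refine ⟨∑ k ∈ Finset.range (F.natDegree + 1), F.coeff k * (m k : ℝ), ?_⟩
  simp only [eval_eq_sum_range]
  refine HM.sum _ (fun k _ => (htb.pow k).smul _) fun k _ => ?_
  have h1 := hm k
  simp only [rl, Polynomial.map_pow, map_X, eval_pow, eval_X] at h1
  exact h1.smul _

theorem finite_case {t : Pr S → ℝ} (htb : Bd t) (HI : ∀ Q : ℤ[X], ∃ M : ℤ, HM (fun p => (rl Q).eval (t p)) M)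
    (V : Finset ℝ) (hV : Lim t = V) :
    (∃ Q : ℤ[X], rl Q = ∏ v ∈ V, (X - Polynomial.C v)) ∧
      ∀ v ∈ V, ∃ δ : ℝ, 0 < δ ∧ ∀ ε : ℝ, 0 < ε → (∀ w ∈ V, w ≠ v → ε < |w - v|) →
        HM (ind {p | |t p - v| < ε}) δ := by
  classical
  obtain ⟨B, hB⟩ := id htb
  choose L hL using real_mean htb HI
  have hzero : ∀ F : ℝ[X], (∀ v ∈ V, F.eval v = 0) → L F = 0 := by
    intro F hF
    refine HM_zero (htb.poly F) (hL F) fun ε hε => ?_
    have hU : IsOpen {x : ℝ | |F.eval x| < ε} := isOpen_lt F.continuous.abs continuous_const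
    refine (Nl_of_open hB hU fun x hx => ?_).mono fun p hp => ?_
    · rw [hV] at hx
      show |F.eval x| < ε
      rw [hF x (Finset.mem_coe.1 hx), abs_zero]
      exact hε
    · have h1 : ε < |F.eval (t p)| := hp
      show ¬ |F.eval (t p)| < ε
      linarith
  have hadd : ∀ F G : ℝ[X], L (F + G) = L F + L G := by
    intro F G
    refine (hL (F + G)).unique ?_
    have := HM.add (htb.poly F) (htb.poly G) (hL F) (hL G)
    simpa only [eval_add] using this
  have hsmul : ∀ (c : ℝ) (F : ℝ[X]), L (Polynomial.C c * F) = c * L F := by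
    intro c F
    refine (hL _).unique ?_
    have := (hL F).smul c
    simpa only [eval_mul, eval_C] using this
  have hsum : ∀ (s : Finset ℝ) (F : ℝ → ℝ[X]), L (∑ v ∈ s, F v) = ∑ v ∈ s, L (F v) := by
    intro s F
    induction s using Finset.induction_on with
    | empty =>
      rw [Finset.sum_empty, Finset.sum_empty]
      exact hzero 0 (by simp)
    | insert a s ha ih => rw [Finset.sum_insert ha, Finset.sum_insert ha, hadd, ih]
  have hcongr : ∀ F G : ℝ[X], (∀ v ∈ V, F.eval v = G.eval v) → L F = L G := by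
    intro F G h
    have h1 := hzero (F + Polynomial.C (-1) * G) (fun v hv => by
      rw [eval_add, eval_mul, eval_C, h v hv]; ring)
    rw [hadd, hsmul] at h1
    linarith
  set ℓ : ℝ → ℝ[X] := fun v => Lagrange.basis V id v with hℓ
  have hself : ∀ v ∈ V, (ℓ v).eval v = 1 := fun v hv =>
    Lagrange.eval_basis_self (s := V) (v := id) (i := v) Function.injective_id.injOn hv
  have hother : ∀ v w : ℝ, w ∈ V → w ≠ v → (ℓ v).eval w = 0 := fun v w hw hne =>
    Lagrange.eval_basis_of_ne (s := V) (v := id) (i := v) (j := w) hne.symm hw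
  have hLF : ∀ F : ℝ[X], L F = ∑ v ∈ V, F.eval v * L (ℓ v) := by
    intro F
    have h1 : L F = L (∑ v ∈ V, Polynomial.C (F.eval v) * ℓ v) := by
      refine hcongr _ _ fun w hw => ?_
      rw [eval_finsetSum, Finset.sum_eq_single w]
      · rw [eval_mul, eval_C, hself w hw, mul_one]
      · intro v _ hvw
        rw [eval_mul, hother v w hw hvw.symm, mul_zero]
      · intro h
        exact absurd hw h
    rw [h1, hsum]
    refine Finset.sum_congr rfl fun v _ => ?_
    rw [hsmul]
  have hpos : ∀ v ∈ V, 0 < L (ℓ v) := by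
    intro v hv
    have h1 : L (ℓ v) = L (ℓ v ^ 2) := by
      refine hcongr _ _ fun w hw => ?_
      rw [eval_pow]
      by_cases hwv : w = v
      · rw [hwv, hself v hv]; norm_num
      · rw [hother v w hw hwv]; norm_num
    have h2 : 0 ≤ L (ℓ v ^ 2) := HM.le (Bd.const 0) (htb.poly _) (HM_const 0) (hL _) fun p => by
      rw [eval_pow]; positivity
    rcases h2.lt_or_eq with h3 | h3
    · rw [h1]; exact h3
    · exfalso
      have h4 := hL (ℓ v ^ 2)
      rw [← h3] at h4
      have h5 := Nl_of_HM (htb.poly _) (fun p => by rw [eval_pow]; positivity) h4 (show (0 : ℝ) < 1 / 2 by norm_num)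
      have h6 : ∀ᶠ y in 𝓝 v, 1 / 2 < (ℓ v ^ 2).eval y := by
        refine ((ℓ v ^ 2).continuous.tendsto v).eventually (lt_mem_nhds ?_)
        rw [eval_pow, hself v hv]; norm_num
      obtain ⟨η, hη, h7⟩ := Metric.eventually_nhds_iff.1 h6
      have hvL : v ∈ Lim t := by rw [hV]; exact Finset.mem_coe.2 hv
      refine hvL η hη (h5.mono fun p hp => ?_)
      exact (h7 (show dist (t p) v < η by rw [Real.dist_eq]; exact hp)).le
  refine ⟨int_poly V (fun v => L (ℓ v)) hpos fun Q => ?_, fun v hv => ⟨L (ℓ v), hpos v hv, fun ε hε hw => ?_⟩⟩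
  · obtain ⟨M, hM⟩ := HI Q
    refine ⟨M, ?_⟩
    rw [← hLF (rl Q)]
    exact (hL _).unique hM
  · have hbd : Bd (fun p => ind {p | |t p - v| < ε} p + (-1) * (ℓ v).eval (t p)) :=
      (Bd.ind _).add ((htb.poly _).smul _)
    have h1 : HM (fun p => ind {p | |t p - v| < ε} p + (-1) * (ℓ v).eval (t p)) 0 := by
      refine HM_zero' hbd fun η hη => ?_
      have hU : Lim t ⊆ interior {x : ℝ | |(if |x - v| < ε then (1 : ℝ) else 0) + (-1) * (ℓ v).eval x| ≤ η} := by
        intro w hwL
        rw [hV] at hwL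
        have hwV : w ∈ V := Finset.mem_coe.1 hwL
        rw [mem_interior_iff_mem_nhds]
        by_cases hwv : w = v
        · subst hwv
          have a1 : ∀ᶠ x in 𝓝 w, |x - w| < ε := by
            have : Tendsto (fun x : ℝ => |x - w|) (𝓝 w) (𝓝 |w - w|) :=
              ((continuous_id.sub continuous_const).abs).tendsto w
            rw [sub_self, abs_zero] at this
            exact this.eventually (gt_mem_nhds hε)
          have a2 : ∀ᶠ x in 𝓝 w, |1 + (-1) * (ℓ w).eval x| < η := by
            have : Tendsto (fun x : ℝ => |1 + (-1) * (ℓ w).eval x|) (𝓝 w) (𝓝 |1 + (-1) * (ℓ w).eval w|) :=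
              ((continuous_const.add (continuous_const.mul (ℓ w).continuous)).abs).tendsto w
            rw [hself w hwV] at this
            norm_num at this
            have h9 := this.eventually (gt_mem_nhds hη)
            filter_upwards [h9] with x hx
            rwa [neg_one_mul]
          filter_upwards [a1, a2] with x h3 h4
          show |(if |x - w| < ε then (1 : ℝ) else 0) + (-1) * (ℓ w).eval x| ≤ η
          rw [if_pos h3]
          exact h4.le
        · have a1 : ∀ᶠ x in 𝓝 w, ε < |x - v| := by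
            have : Tendsto (fun x : ℝ => |x - v|) (𝓝 w) (𝓝 |w - v|) :=
              ((continuous_id.sub continuous_const).abs).tendsto w
            exact this.eventually (lt_mem_nhds (hw w hwV hwv))
          have a2 : ∀ᶠ x in 𝓝 w, |0 + (-1) * (ℓ v).eval x| < η := by
            have : Tendsto (fun x : ℝ => |0 + (-1) * (ℓ v).eval x|) (𝓝 w) (𝓝 |0 + (-1) * (ℓ v).eval w|) :=
              ((continuous_const.add (continuous_const.mul (ℓ v).continuous)).abs).tendsto w
            rw [hother v w hwV hwv] at this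
            norm_num at this
            have h9 := this.eventually (gt_mem_nhds hη)
            filter_upwards [h9] with x hx
            rw [zero_add, neg_one_mul, abs_neg]
            exact hx
          filter_upwards [a1, a2] with x h3 h4
          show |(if |x - v| < ε then (1 : ℝ) else 0) + (-1) * (ℓ v).eval x| ≤ η
          rw [if_neg (by linarith)]
          exact h4.le
      refine (Nl_of_open hB isOpen_interior hU).mono fun p hp => ?_
      intro hmem
      have h2 := interior_subset hmem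
      have h3 : |(if |t p - v| < ε then (1 : ℝ) else 0) + (-1) * (ℓ v).eval (t p)| ≤ η := h2
      have h4 : η < |ind {p | |t p - v| < ε} p + (-1) * (ℓ v).eval (t p)| := hp
      have e : ind {p | |t p - v| < ε} p = if |t p - v| < ε then (1 : ℝ) else 0 := by
        unfold ind
        rw [Set.indicator_apply]
        rfl
      rw [e] at h4
      linarith
    have h2 := HM.add hbd (htb.poly (ℓ v)) h1 (hL (ℓ v))
    rw [zero_add] at h2
    have e : (fun p => ind {p | |t p - v| < ε} p + (-1) * (ℓ v).eval (t p) + (ℓ v).eval (t p)) =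
        ind {p | |t p - v| < ε} := by
      funext p
      ring
    rwa [e] at h2

theorem dichotomy {t : Pr S → ℝ} (htb : Bd t) (HI : ∀ Q : ℤ[X], ∃ M : ℤ, HM (fun p => (rl Q).eval (t p)) M) :
    (∃ V : Finset ℝ, Lim t = V ∧ (∃ Q : ℤ[X], rl Q = ∏ v ∈ V, (X - Polynomial.C v)) ∧
      ∀ v ∈ V, ∃ δ : ℝ, 0 < δ ∧ ∀ ε : ℝ, 0 < ε → (∀ w ∈ V, w ≠ v → ε < |w - v|) →
        HM (ind {p | |t p - v| < ε}) δ) ∨
    ∀ P : ℝ[X], P.Monic → ∃ x ∈ Lim t, 1 ≤ |P.eval x| := by
  by_cases h : ∃ P : ℝ[X], P.Monic ∧ ∀ x ∈ Lim t, |P.eval x| < 1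
  · left
    obtain ⟨P, hP, hx⟩ := h
    have hfin := finite_of_monic htb HI P hP hx
    obtain ⟨h1, h2⟩ := finite_case htb HI hfin.toFinset (by simp)
    exact ⟨hfin.toFinset, by simp, h1, h2⟩
  · right
    push Not at h
    exact h

theorem rigid {t : Pr S → ℝ} (htb : Bd t) (HI : ∀ Q : ℤ[X], ∃ M : ℤ, HM (fun p => (rl Q).eval (t p)) M)
    (hinf : (Lim t).Infinite) (a : ℝ) (ha : Lim t ⊆ Set.Icc a (a + 4)) : Lim t = Set.Icc a (a + 4) := by
  refine Set.Subset.antisymm ha fun x0 hx0 => ?_
  by_contra hx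
  have h1 : (Lim t)ᶜ ∈ 𝓝 x0 := (Lim_closed t).isOpen_compl.mem_nhds hx
  obtain ⟨h, hh, h2⟩ := Metric.mem_nhds_iff.1 h1
  obtain ⟨P, hP, ρ, hρ, H⟩ := gap a x0 h hx0 hh
  refine hinf (finite_of_monic htb HI P hP fun x hxL => lt_of_le_of_lt (H x (ha hxL) ?_) hρ)
  by_contra h3
  have h4 : x ∈ Metric.ball x0 h := by
    rw [Metric.mem_ball, Real.dist_eq]
    exact not_le.1 h3
  exact h2 h4 hxL

end Pool.Agent.Helper812_TC
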