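import Mathlib

/-! Integer polynomials which are small on a set of capacity less than one. -/

set_option autoImplicit false

open Polynomial

namespace Pool.Agent.Helper812_TC

/-- the real polynomial of an integer polynomial -/
noncomputable abbrev rl (Q : ℤ[X]) : ℝ[X] := Q.map (Int.castRingHom ℝ)

/-- Every real polynomial of degree less than `k` is an integer polynomial minus a combination of
`P 0, ..., P (k-1)` with coefficients in `[0, 1)`. -/
theorem reduce (P : ℕ → ℝ[X]) (hP : ∀ j, (P j).Monic) (hd : ∀ j, (P j).natDegree = j) :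
    ∀ (k : ℕ) (F : ℝ[X]), F.degree < (k : WithBot ℕ) → ∃ (A : ℤ[X]) (θ : ℕ → ℝ), A.degree < (k : WithBot ℕ) ∧
      (∀ j, 0 ≤ θ j ∧ θ j < 1) ∧
      rl A = F + ∑ j ∈ Finset.range k, Polynomial.C (θ j) * P j := by
  intro k
  induction k with
  | zero =>
    intro F hF
    have h0 : F = 0 := by
      by_contra hne
      have h1 := Polynomial.zero_le_degree_iff.2 hne
      exact absurd hF (not_lt.2 (by exact_mod_cast h1))
    refine ⟨0, fun _ => 0, ?_, fun j => ⟨le_rfl, zero_lt_one⟩, ?_⟩
    · rw [degree_zero]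
      exact WithBot.bot_lt_coe _
    · simp [h0]
  | succ k ih =>
    intro F hF
    have hθ0 : (0 : ℝ) ≤ (⌈F.coeff k⌉ : ℝ) - F.coeff k := by linarith [Int.le_ceil (F.coeff k)]
    have hθ1 : (⌈F.coeff k⌉ : ℝ) - F.coeff k < 1 := by linarith [Int.ceil_lt_add_one (F.coeff k)]
    have hdeg : (F - Polynomial.C (⌈F.coeff k⌉ : ℝ) * X ^ k +
        Polynomial.C ((⌈F.coeff k⌉ : ℝ) - F.coeff k) * P k).degree < (k : WithBot ℕ) := by
      rw [degree_lt_iff_coeff_zero]
      intro m hm
      rw [coeff_add, coeff_sub, coeff_C_mul, coeff_C_mul, coeff_X_pow]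
      rcases Nat.eq_or_lt_of_le hm with rfl | hlt
      · have h1 : (P k).coeff k = 1 := by
          have := (hP k).coeff_natDegree
          rwa [hd k] at this
        rw [h1]
        simp
      · have h1 : F.coeff m = 0 := by
          apply coeff_eq_zero_of_degree_lt
          refine hF.trans_le ?_
          exact_mod_cast hlt
        have h2 : (P k).coeff m = 0 := coeff_eq_zero_of_natDegree_lt (by rw [hd k]; exact hlt)
        rw [h1, h2, if_neg (by omega)]
        simp
    obtain ⟨A, θ, hA, hθ, h⟩ := ih _ hdeg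
    refine ⟨A + Polynomial.C ⌈F.coeff k⌉ * X ^ k,
      fun j => if j = k then (⌈F.coeff k⌉ : ℝ) - F.coeff k else θ j, ?_, ?_, ?_⟩
    · refine (degree_add_le _ _).trans_lt ?_
      rw [max_lt_iff]
      constructor
      · exact hA.trans (by exact_mod_cast Nat.lt_succ_self k)
      · refine (degree_C_mul_X_pow_le _ _).trans_lt ?_
        exact_mod_cast Nat.lt_succ_self k
    · intro j
      by_cases hj : j = k
      · simp only [hj, if_true]
        exact ⟨hθ0, hθ1⟩
      · simp only [hj, if_false]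
        exact hθ j
    · rw [Finset.sum_range_succ]
      have e1 : ∑ j ∈ Finset.range k, Polynomial.C (if j = k then (⌈F.coeff k⌉ : ℝ) - F.coeff k else θ j) * P j =
          ∑ j ∈ Finset.range k, Polynomial.C (θ j) * P j := by
        refine Finset.sum_congr rfl fun j hj => ?_
        rw [if_neg (by have := Finset.mem_range.1 hj; omega)]
      rw [e1]
      beta_reduce
      rw [if_pos rfl]
      have e2 : rl (A + Polynomial.C ⌈F.coeff k⌉ * X ^ k) = rl A + Polynomial.C (⌈F.coeff k⌉ : ℝ) * X ^ k := by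
        simp [rl]
      rw [e2, h]
      ring

theorem small_int (P : ℕ → ℝ[X]) (hP : ∀ j, (P j).Monic) (hd : ∀ j, (P j).natDegree = j) (u : ℕ → ℝ)
    (hu : Summable u) (hu0 : ∀ j, 0 ≤ u j) (K : Set ℝ) (hK : ∀ j, ∀ x ∈ K, |(P j).eval x| ≤ u j) :
    ∃ Q : ℤ[X], Q ≠ 0 ∧ ∃ c < (1 : ℝ), ∀ x ∈ K, |(rl Q).eval x| ≤ c := by
  have hF : ∀ k : ℕ, (P k - X ^ k).degree < (k : WithBot ℕ) := by
    intro k
    rw [degree_lt_iff_coeff_zero]
    intro m hm
    rw [coeff_sub, coeff_X_pow]
    rcases Nat.eq_or_lt_of_le hm with rfl | hlt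
    · have h1 : (P k).coeff k = 1 := by
        have := (hP k).coeff_natDegree
        rwa [hd k] at this
      rw [h1]
      simp
    · rw [coeff_eq_zero_of_natDegree_lt (by rw [hd k]; exact hlt), if_neg (by omega)]
      simp
  choose A θ hA hθ hAθ using fun k : ℕ => reduce P hP hd k (P k - X ^ k) (hF k)
  -- the coefficients of the monic integer polynomials
  set φ : ℕ → ℕ → ℝ := fun k j => if j < k then θ k j else if j = k then 1 else 0 with hφ
  set Bk : ℕ → ℤ[X] := fun k => A k + X ^ k with hBk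
  have hφ01 : ∀ k j, 0 ≤ φ k j ∧ φ k j ≤ 1 := by
    intro k j
    simp only [hφ]
    split_ifs
    · exact ⟨(hθ k j).1, (hθ k j).2.le⟩
    · exact ⟨zero_le_one, le_rfl⟩
    · exact ⟨le_rfl, zero_le_one⟩
  have hB : ∀ k M : ℕ, k < M → ∀ x : ℝ, (rl (Bk k)).eval x = ∑ j ∈ Finset.range M, φ k j * (P j).eval x := by
    intro k M hkM x
    have e1 : rl (Bk k) = P k + ∑ j ∈ Finset.range k, Polynomial.C (θ k j) * P j := by
      have : rl (Bk k) = rl (A k) + X ^ k := by simp [rl, hBk]
      rw [this, hAθ k]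
      ring
    rw [e1, eval_add, eval_finsetSum]
    have e2 : ∑ j ∈ Finset.range M, φ k j * (P j).eval x =
        ∑ j ∈ Finset.range (k + 1), φ k j * (P j).eval x := by
      symm
      refine Finset.sum_subset (Finset.range_subset_range.2 (by omega)) fun j _ hj => ?_
      have hj' : ¬ j < k + 1 := fun h => hj (Finset.mem_range.2 h)
      simp only [hφ]
      rw [if_neg (by omega), if_neg (by omega), zero_mul]
    rw [e2, Finset.sum_range_succ, add_comm]
    congr 1
    · refine Finset.sum_congr rfl fun j hj => ?_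
      simp only [hφ]
      rw [if_pos (Finset.mem_range.1 hj), eval_mul, eval_C]
    · simp [hφ]
  have hBdeg : ∀ k, (Bk k).degree = k := by
    intro k
    simp only [hBk]
    rw [degree_add_eq_right_of_degree_lt]
    · exact degree_X_pow k
    · rw [degree_X_pow]
      exact hA k
  -- the tail
  obtain ⟨m, hm⟩ : ∃ m : ℕ, ∀ M : ℕ, ∑ j ∈ Finset.Ico m M, u j ≤ 1 / 4 := by
    have h1 := hu.hasSum.tendsto_sum_nat
    have h2 := (h1.eventually (lt_mem_nhds (show ∑' j, u j - 1 / 4 < ∑' j, u j by linarith))).exists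
    obtain ⟨m, hm⟩ := h2
    refine ⟨m, fun M => ?_⟩
    by_cases hmM : m ≤ M
    · have h3 : ∑ j ∈ Finset.range M, u j ≤ ∑' j, u j := hu.sum_le_tsum _ (fun j _ => hu0 j)
      rw [← Finset.sum_range_add_sum_Ico u hmM] at h3
      linarith
    · rw [Finset.Ico_eq_empty (by omega)]
      norm_num
  set T : ℝ := ∑' j, u j with hT
  have hT0 : 0 ≤ T := tsum_nonneg hu0
  obtain ⟨N, hN⟩ := exists_nat_gt (4 * T + 1)
  have hN0 : (0 : ℝ) < N := by linarith
  have hNpos : 0 < N := by exact_mod_cast hN0
  let f : ℕ → (Fin m → Fin N) := fun i j => ⟨⌊(N : ℝ) * θ (m + i) j⌋₊, by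
    have h1 := (hθ (m + i) j)
    rw [Nat.floor_lt (mul_nonneg hN0.le h1.1)]
    nlinarith [h1.2]⟩
  obtain ⟨i, i', hne, heq⟩ := Finite.exists_ne_map_eq_of_infinite f
  refine ⟨Bk (m + i) - Bk (m + i'), ?_, 1 / 2, by norm_num, ?_⟩
  · intro h0
    have h1 : Bk (m + i) = Bk (m + i') := sub_eq_zero.1 h0
    have h2 := congrArg degree h1
    rw [hBdeg, hBdeg] at h2
    have h3 : m + i = m + i' := by exact_mod_cast h2
    omega
  · intro x hx
    set M : ℕ := m + i + i' + 1 with hM
    have e1 : (rl (Bk (m + i) - Bk (m + i'))).eval x =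
        ∑ j ∈ Finset.range M, (φ (m + i) j - φ (m + i') j) * (P j).eval x := by
      have : rl (Bk (m + i) - Bk (m + i')) = rl (Bk (m + i)) - rl (Bk (m + i')) := by simp [rl]
      rw [this, eval_sub, hB _ M (by omega), hB _ M (by omega), ← Finset.sum_sub_distrib]
      refine Finset.sum_congr rfl fun j _ => ?_
      ring
    rw [e1, ← Finset.sum_range_add_sum_Ico _ (show m ≤ M by omega)]
    refine (abs_add_le _ _).trans ?_
    have b1 : |∑ j ∈ Finset.range m, (φ (m + i) j - φ (m + i') j) * (P j).eval x| ≤ 1 / 4 := by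
      refine (Finset.abs_sum_le_sum_abs _ _).trans ?_
      have c1 : ∀ j ∈ Finset.range m, |(φ (m + i) j - φ (m + i') j) * (P j).eval x| ≤ (1 / N) * u j := by
        intro j hj
        have hj' := Finset.mem_range.1 hj
        rw [abs_mul]
        have c2 : |φ (m + i) j - φ (m + i') j| ≤ 1 / N := by
          have c3 := congrFun heq ⟨j, hj'⟩
          simp only [f, Fin.mk.injEq] at c3
          simp only [hφ]
          rw [if_pos (by omega), if_pos (by omega)]
          have n1 := (hθ (m + i) j).1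
          have n2 := (hθ (m + i') j).1
          have f1 := Nat.floor_le (mul_nonneg hN0.le n1)
          have f2 := Nat.lt_floor_add_one ((N : ℝ) * θ (m + i) j)
          have f3 := Nat.floor_le (mul_nonneg hN0.le n2)
          have f4 := Nat.lt_floor_add_one ((N : ℝ) * θ (m + i') j)
          rw [← c3] at f3 f4
          rw [abs_le]
          have key : ∀ y : ℝ, N * y ≤ 1 → y ≤ 1 / N := fun y hy => by
            rw [le_div_iff₀ hN0]
            linarith
          constructor
          · have := key (θ (m + i') j - θ (m + i) j) (by nlinarith)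
            linarith
          · exact key _ (by nlinarith)
        exact mul_le_mul c2 (hK j x hx) (abs_nonneg _) (by positivity)
      refine (Finset.sum_le_sum c1).trans ?_
      rw [← Finset.mul_sum]
      have c4 : ∑ j ∈ Finset.range m, u j ≤ T := hu.sum_le_tsum _ (fun j _ => hu0 j)
      rw [one_div, inv_mul_le_iff₀ hN0]
      linarith
    have b2 : |∑ j ∈ Finset.Ico m M, (φ (m + i) j - φ (m + i') j) * (P j).eval x| ≤ 1 / 4 := by
      refine (Finset.abs_sum_le_sum_abs _ _).trans ((Finset.sum_le_sum fun j _ => ?_).trans (hm M))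
      rw [abs_mul]
      have c2 : |φ (m + i) j - φ (m + i') j| ≤ 1 := by
        rw [abs_le]
        have := hφ01 (m + i) j
        have := hφ01 (m + i') j
        constructor <;> linarith
      calc _ ≤ 1 * u j := mul_le_mul c2 (hK j x hx) (abs_nonneg _) zero_le_one
        _ = u j := one_mul _
    linarith

theorem summable_div (d : ℕ) (hd : 0 < d) (c : ℝ) (hc0 : 0 ≤ c) (hc : c < 1) (C : ℝ) :
    Summable fun j : ℕ => c ^ (j / d) * C := by
  apply Summable.mul_right
  have hb : ∀ n : ℕ, ∑ j ∈ Finset.range n, c ^ (j / d) ≤ d * (1 - c)⁻¹ := by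
    intro n
    have h1 : ∑ j ∈ Finset.range n, c ^ (j / d) ≤ ∑ j ∈ Finset.range (n * d), c ^ (j / d) :=
      Finset.sum_le_sum_of_subset_of_nonneg (Finset.range_subset_range.2 (Nat.le_mul_of_pos_right n hd))
        fun j _ _ => pow_nonneg hc0 _
    have h2 : ∀ q : ℕ, ∑ j ∈ Finset.range (q * d), c ^ (j / d) = d * ∑ i ∈ Finset.range q, c ^ i := by
      intro q
      induction q with
      | zero => simp
      | succ q ih =>
        rw [Nat.succ_mul, Finset.sum_range_add, ih, Finset.sum_range_succ, mul_add]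
        congr 1
        rw [Finset.sum_congr rfl (fun j hj => by
          rw [show (q * d + j) / d = q by
            rw [add_comm, Nat.add_mul_div_right _ _ hd, Nat.div_eq_of_lt (Finset.mem_range.1 hj), zero_add]])]
        simp
    rw [h2] at h1
    refine h1.trans (mul_le_mul_of_nonneg_left ?_ (Nat.cast_nonneg d))
    exact (summable_geometric_of_lt_one hc0 hc).sum_le_tsum _ (fun j _ => pow_nonneg hc0 _) |>.trans
      (tsum_geometric_of_lt_one hc0 hc).le
  exact summable_of_sum_range_le (fun j => pow_nonneg hc0 _) hb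

/-- a bounded set on which a monic real polynomial is less than one -/
theorem small_int_of_monic (P : ℝ[X]) (hP : P.Monic) (K : Set ℝ) (hne : K.Nonempty) (B : ℝ)
    (hB : ∀ x ∈ K, |x| ≤ B) (c : ℝ) (hc : c < 1) (h : ∀ x ∈ K, |P.eval x| ≤ c) :
    ∃ Q : ℤ[X], Q ≠ 0 ∧ ∃ c < (1 : ℝ), ∀ x ∈ K, |(rl Q).eval x| ≤ c := by
  obtain ⟨x0, hx0⟩ := hne
  have hc0 : 0 ≤ c := (abs_nonneg _).trans (h x0 hx0)
  have hd : 0 < P.natDegree := by
    by_contra h0
    have h1 : P = 1 := hP.natDegree_eq_zero.1 (by omega)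
    have h2 := h x0 hx0
    rw [h1, eval_one, abs_one] at h2
    linarith
  set d := P.natDegree with hdd
  set B' : ℝ := max B 1 with hB'
  have hB1 : 1 ≤ B' := le_max_right _ _
  refine small_int (fun j => P ^ (j / d) * X ^ (j % d)) (fun j => (hP.pow _).mul (monic_X_pow _)) (fun j => ?_)
    (fun j => c ^ (j / d) * B' ^ d) (summable_div d hd c hc0 hc _) (fun j => by positivity) K
    (fun j x hx => ?_)
  · rw [(hP.pow _).natDegree_mul (monic_X_pow _), hP.natDegree_pow, natDegree_X_pow, ← hdd]
    rw [mul_comm]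
    exact Nat.div_add_mod j d
  · rw [eval_mul, eval_pow, eval_pow, eval_X, abs_mul, abs_pow, abs_pow]
    refine mul_le_mul (pow_le_pow_left₀ (abs_nonneg _) (h x hx) _) ?_ (by positivity) (by positivity)
    calc |x| ^ (j % d) ≤ B' ^ (j % d) := pow_le_pow_left₀ (abs_nonneg _) ((hB x hx).trans (le_max_left _ _)) _
      _ ≤ B' ^ d := pow_le_pow_right₀ hB1 (Nat.mod_lt _ hd).le

end Pool.Agent.Helper812_TC
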