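import Pool.Agent.H406.EDG.Main
import Pool.Agent.Helper812_TC.Poly

/-! Mean values over the primes in the sense of Dirichlet density. -/

set_option autoImplicit false

open Filter Topology Pool.Agent.H406.EDG

namespace Pool.Agent.Helper812_TC

variable {S : Finset ℕ}

/-- bounded functions -/
def Bd (f : Pr S → ℝ) : Prop := ∃ B : ℝ, ∀ p, |f p| ≤ B

/-- the sum of `f p * p ^ (-σ)` -/
noncomputable def sm (f : Pr S → ℝ) (σ : ℝ) : ℝ := ∑' p, f p * ww σ p

/-- `f` has the mean value `M` -/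
def HM (f : Pr S → ℝ) (M : ℝ) : Prop := Tendsto (fun σ => sm f σ / Lam σ) (𝓝[>] 1) (𝓝 M)

/-- the indicator function -/
noncomputable def ind (B : Set (Pr S)) : Pr S → ℝ := Set.indicator B fun _ => 1

/-- density zero -/
def Nl (B : Set (Pr S)) : Prop := HM (ind B) 0

theorem Lam_pos : ∀ᶠ σ : ℝ in 𝓝[>] 1, 0 < Lam σ := Lam_tendsto.eventually_gt_atTop 0

theorem summ {f : Pr S → ℝ} (hf : Bd f) {σ : ℝ} (hσ : 1 < σ) : Summable fun p => f p * ww σ p := by
  obtain ⟨B, hB⟩ := hf
  refine Summable.of_norm_bounded ((ww_summable (S := S) hσ).mul_left B) fun p => ?_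
  rw [norm_mul, Real.norm_of_nonneg (ww_pos σ p).le]
  exact mul_le_mul_of_nonneg_right (hB p) (ww_pos σ p).le

theorem Bd.add {f g : Pr S → ℝ} (hf : Bd f) (hg : Bd g) : Bd (fun p => f p + g p) := by
  obtain ⟨B, hB⟩ := hf
  obtain ⟨C, hC⟩ := hg
  exact ⟨B + C, fun p => (abs_add_le _ _).trans (add_le_add (hB p) (hC p))⟩

theorem Bd.smul {f : Pr S → ℝ} (hf : Bd f) (c : ℝ) : Bd (fun p => c * f p) := by
  obtain ⟨B, hB⟩ := hf
  exact ⟨|c| * B, fun p => by rw [abs_mul]; exact mul_le_mul_of_nonneg_left (hB p) (abs_nonneg c)⟩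

theorem Bd.const (c : ℝ) : Bd (fun _ : Pr S => c) := ⟨|c|, fun _ => le_rfl⟩

theorem Bd.ind (B : Set (Pr S)) : Bd (ind B) := ⟨1, fun p => by
  unfold Helper812_TC.ind
  by_cases h : p ∈ B
  · rw [Set.indicator_of_mem h]; simp
  · rw [Set.indicator_of_notMem h]; simp⟩

theorem Bd.sum {α : Type} (s : Finset α) {f : α → Pr S → ℝ} (hf : ∀ i ∈ s, Bd (f i)) :
    Bd (fun p => ∑ i ∈ s, f i p) := by
  classical
  induction s using Finset.induction_on with
  | empty => simpa using Bd.const (S := S) 0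
  | insert a s ha ih =>
    simp only [Finset.sum_insert ha]
    exact (hf a (Finset.mem_insert_self a s)).add (ih fun i hi => hf i (Finset.mem_insert_of_mem hi))

theorem ind_nonneg (B : Set (Pr S)) (p : Pr S) : 0 ≤ ind B p := Set.indicator_nonneg (fun _ _ => zero_le_one) p

theorem sm_add {f g : Pr S → ℝ} (hf : Bd f) (hg : Bd g) {σ : ℝ} (hσ : 1 < σ) :
    sm (fun p => f p + g p) σ = sm f σ + sm g σ := by
  unfold sm
  rw [← (summ hf hσ).tsum_add (summ hg hσ)]
  exact tsum_congr fun p => by ring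

theorem sm_smul (f : Pr S → ℝ) (c σ : ℝ) : sm (fun p => c * f p) σ = c * sm f σ := by
  unfold sm
  rw [← tsum_mul_left]
  exact tsum_congr fun p => by ring

theorem sm_mono {f g : Pr S → ℝ} (hf : Bd f) (hg : Bd g) (h : ∀ p, f p ≤ g p) {σ : ℝ} (hσ : 1 < σ) :
    sm f σ ≤ sm g σ :=
  Summable.tsum_le_tsum (fun p => mul_le_mul_of_nonneg_right (h p) (ww_pos σ p).le) (summ hf hσ) (summ hg hσ)

theorem gt_one : ∀ᶠ σ : ℝ in 𝓝[>] 1, 1 < σ := by
  filter_upwards [self_mem_nhdsWithin] with σ h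
  exact h

theorem HM.add {f g : Pr S → ℝ} (hf : Bd f) (hg : Bd g) {a b : ℝ} (h1 : HM f a) (h2 : HM g b) :
    HM (fun p => f p + g p) (a + b) := by
  refine (Tendsto.add h1 h2).congr' ?_
  filter_upwards [gt_one] with σ hσ
  rw [sm_add hf hg hσ, add_div]

theorem HM.smul {f : Pr S → ℝ} {a : ℝ} (h1 : HM f a) (c : ℝ) : HM (fun p => c * f p) (c * a) := by
  refine (Tendsto.const_mul c h1).congr fun σ => ?_
  rw [sm_smul, mul_div_assoc]

theorem HM.sum {α : Type} (s : Finset α) {f : α → Pr S → ℝ} {a : α → ℝ} (hf : ∀ i ∈ s, Bd (f i))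
    (h : ∀ i ∈ s, HM (f i) (a i)) : HM (fun p => ∑ i ∈ s, f i p) (∑ i ∈ s, a i) := by
  classical
  induction s using Finset.induction_on with
  | empty =>
    simp only [Finset.sum_empty]
    unfold HM sm
    simp
  | insert b s hb ih =>
    simp only [Finset.sum_insert hb]
    exact HM.add (hf b (Finset.mem_insert_self b s)) (Bd.sum s fun i hi => hf i (Finset.mem_insert_of_mem hi))
      (h b (Finset.mem_insert_self b s)) (ih (fun i hi => hf i (Finset.mem_insert_of_mem hi))
        fun i hi => h i (Finset.mem_insert_of_mem hi))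

theorem HM.le {f g : Pr S → ℝ} (hf : Bd f) (hg : Bd g) {a b : ℝ} (h1 : HM f a) (h2 : HM g b)
    (h : ∀ p, f p ≤ g p) : a ≤ b := by
  refine le_of_tendsto_of_tendsto h1 h2 ?_
  filter_upwards [gt_one, Lam_pos] with σ hσ hL
  exact div_le_div_of_nonneg_right (sm_mono hf hg h hσ) hL.le

theorem HM.unique {f : Pr S → ℝ} {a b : ℝ} (h1 : HM f a) (h2 : HM f b) : a = b := tendsto_nhds_unique h1 h2

theorem HM_of_err {f : Pr S → ℝ} {c C : ℝ} (h : ∀ᶠ σ : ℝ in 𝓝[>] 1, |sm f σ - c * Lam σ| ≤ C) : HM f c := by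
  have h1 : Tendsto (fun σ => C / Lam σ) (𝓝[>] 1) (𝓝 0) := Tendsto.const_div_atTop Lam_tendsto C
  have h2 : Tendsto (fun σ => sm f σ / Lam σ - c) (𝓝[>] 1) (𝓝 0) := by
    refine squeeze_zero_norm' ?_ h1
    filter_upwards [h, Lam_pos] with σ h3 hL
    have e : sm f σ / Lam σ - c = (sm f σ - c * Lam σ) / Lam σ := by
      field_simp
    rw [e, Real.norm_eq_abs, abs_div, abs_of_pos hL]
    exact div_le_div_of_nonneg_right h3 hL.le
  have h3 := h2.add_const c
  simpa [HM] using h3

theorem VV_one (p : Pr S) : VV (1 : DirichletCharacter ℂ 1) 0 p = 1 := by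
  unfold VV
  rw [MulChar.one_apply (isUnit_of_subsingleton _)]
  simp

theorem HM_one : HM (fun _ : Pr S => 1) 1 := by
  obtain ⟨C, hC⟩ := gram (S := S) (1 : DirichletCharacter ℂ 1) 1 0 0
  refine HM_of_err (C := C) ?_
  filter_upwards [hC] with σ h1
  rw [if_pos ⟨rfl, rfl⟩] at h1
  simp only [VV_one] at h1
  simp only [map_one, mul_one, Complex.one_re] at h1
  unfold sm
  rw [one_mul]
  exact h1

theorem HM_const (c : ℝ) : HM (fun _ : Pr S => c) c := by
  have := (HM_one (S := S)).smul c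
  simpa using this

theorem pt10 : pt 1 0 = 1 := by simp [pt]

/-- A meromorphic continuation to `s = 1` gives an integral mean value. -/
theorem HM_of_mero {ι : Type} [Fintype ι] {a : Pr S → ι → ℂ} (ha : ∀ p i, ‖a p i‖ = 1) {E : ℂ → ℂ}
    (hE : MeromorphicAt E 1) (hEL : ∀ s : ℂ, 1 < s.re → E s = LL a (1 : DirichletCharacter ℂ 1) s) :
    ∃ M : ℤ, HM (fun p => (∑ i, a p i).re) M := by
  obtain ⟨C, -, hC⟩ := LL_log ha (1 : DirichletCharacter ℂ 1) 0
  have hE' : MeromorphicAt E (pt 1 0) := by rw [pt10]; exact hE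
  have hne := order_ne_top (t := 0) ha hEL
  obtain ⟨C', hC'⟩ := order_log hE' (WithTop.coe_untop₀_of_ne_top hne).symm
  set r : ℤ := (meromorphicOrderAt E (pt 1 0)).untop₀ with hr
  refine ⟨-r, HM_of_err (C := C + C') ?_⟩
  filter_upwards [hC, hC', gt_one] with σ h1 h2 hσ
  rw [hEL _ (by rw [pt_re]; exact hσ)] at h2
  simp only [VV_one, mul_one] at h1
  have e : sm (fun p => (∑ i, a p i).re) σ = ∑' p : Pr S, (∑ i, a p i).re * ww σ p := rfl
  rw [e]
  have h3 := abs_le.1 h1
  have h4 := abs_le.1 h2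
  push_cast
  rw [abs_le]
  constructor <;> linarith

/-! Sets of density zero. -/

theorem Nl.mono {B B' : Set (Pr S)} (h : B ⊆ B') (hB : Nl B') : Nl B := by
  refine tendsto_of_tendsto_of_tendsto_of_le_of_le' tendsto_const_nhds hB ?_ ?_
  · filter_upwards [gt_one, Lam_pos] with σ hσ hL
    exact div_nonneg (tsum_nonneg fun p => mul_nonneg (ind_nonneg B p) (ww_pos σ p).le) hL.le
  · filter_upwards [gt_one, Lam_pos] with σ hσ hL
    refine div_le_div_of_nonneg_right (sm_mono (Bd.ind B) (Bd.ind B') (fun p => ?_) hσ) hL.le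
    exact Set.indicator_le_indicator_of_subset h (fun _ => zero_le_one) p

theorem Nl.empty : Nl (∅ : Set (Pr S)) := by
  unfold Nl ind HM sm
  simp

theorem Nl.union {B B' : Set (Pr S)} (h : Nl B) (h' : Nl B') : Nl (B ∪ B') := by
  have h1 := HM.add (Bd.ind B) (Bd.ind B') h h'
  rw [add_zero] at h1
  refine tendsto_of_tendsto_of_tendsto_of_le_of_le' tendsto_const_nhds h1 ?_ ?_
  · filter_upwards [gt_one, Lam_pos] with σ hσ hL
    exact div_nonneg (tsum_nonneg fun p => mul_nonneg (ind_nonneg _ p) (ww_pos σ p).le) hL.le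
  · filter_upwards [gt_one, Lam_pos] with σ hσ hL
    refine div_le_div_of_nonneg_right (sm_mono (Bd.ind _) ((Bd.ind B).add (Bd.ind B')) (fun p => ?_) hσ) hL.le
    by_cases h2 : p ∈ B
    · have e : ind B p = 1 := Set.indicator_of_mem h2 _
      have e' : ind (B ∪ B') p = 1 := Set.indicator_of_mem (Set.mem_union_left _ h2) _
      rw [e, e']
      linarith [ind_nonneg B' p]
    · by_cases h3 : p ∈ B'
      · have e : ind B' p = 1 := Set.indicator_of_mem h3 _
        have e' : ind (B ∪ B') p = 1 := Set.indicator_of_mem (Set.mem_union_right _ h3) _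
        rw [e, e']
        linarith [ind_nonneg B p]
      · have e' : ind (B ∪ B') p = 0 := Set.indicator_of_notMem (fun h => h.elim h2 h3) _
        rw [e']
        linarith [ind_nonneg B p, ind_nonneg B' p]

theorem Nl.biUnion {α : Type} (s : Finset α) (B : α → Set (Pr S)) (h : ∀ i ∈ s, Nl (B i)) :
    Nl (⋃ i ∈ s, B i) := by
  classical
  induction s using Finset.induction_on with
  | empty => simpa using Nl.empty (S := S)
  | insert a s ha ih =>
    rw [Finset.set_biUnion_insert]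
    exact (h a (Finset.mem_insert_self a s)).union (ih fun i hi => h i (Finset.mem_insert_of_mem hi))

/-- Markov's inequality -/
theorem Nl_of_HM {f : Pr S → ℝ} (hf : Bd f) (h0 : ∀ p, 0 ≤ f p) (h : HM f 0) {ε : ℝ} (hε : 0 < ε) :
    Nl {p | ε ≤ f p} := by
  have h1 := h.smul ε⁻¹
  rw [mul_zero] at h1
  refine tendsto_of_tendsto_of_tendsto_of_le_of_le' tendsto_const_nhds h1 ?_ ?_
  · filter_upwards [gt_one, Lam_pos] with σ hσ hL
    exact div_nonneg (tsum_nonneg fun p => mul_nonneg (ind_nonneg _ p) (ww_pos σ p).le) hL.le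
  · filter_upwards [gt_one, Lam_pos] with σ hσ hL
    refine div_le_div_of_nonneg_right (sm_mono (Bd.ind _) (hf.smul _) (fun p => ?_) hσ) hL.le
    by_cases h2 : p ∈ {p | ε ≤ f p}
    · have e : ind {p | ε ≤ f p} p = 1 := Set.indicator_of_mem h2 _
      rw [e]
      have h3 : ε ≤ f p := h2
      rw [inv_mul_eq_div, le_div_iff₀ hε]
      linarith
    · have e : ind {p | ε ≤ f p} p = 0 := Set.indicator_of_notMem h2 _
      rw [e]
      exact mul_nonneg (inv_nonneg.2 hε.le) (h0 p)

/-- a bound which holds outside a set of density zero is a bound for the mean value -/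
theorem HM.le_of_Nl {f : Pr S → ℝ} (hf : Bd f) {M c : ℝ} (h : HM f M) (hc : Nl {p | c < f p}) : M ≤ c := by
  obtain ⟨B, hB⟩ := hf
  have h1 := HM.add (Bd.const (S := S) c) ((Bd.ind {p | c < f p}).smul (B + |c|)) (HM_const c)
    (HM.smul hc (B + |c|))
  rw [mul_zero, add_zero] at h1
  refine HM.le ⟨B, hB⟩ ((Bd.const c).add ((Bd.ind _).smul _)) h h1 fun p => ?_
  by_cases h2 : p ∈ {p | c < f p}
  · have e : ind {p | c < f p} p = 1 := Set.indicator_of_mem h2 _
    rw [e, mul_one]
    linarith [le_abs_self (f p), hB p, neg_abs_le c]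
  · have e : ind {p | c < f p} p = 0 := Set.indicator_of_notMem h2 _
    rw [e, mul_zero, add_zero]
    exact not_lt.1 h2

/-- a bounded function which is small outside sets of density zero has mean value zero -/
theorem HM_zero {f : Pr S → ℝ} (hf : Bd f) {M : ℝ} (hM : HM f M) (h : ∀ ε : ℝ, 0 < ε → Nl {p | ε < |f p|}) : M = 0 := by
  have h1 : ∀ ε : ℝ, 0 < ε → M ≤ ε := by
    intro ε hε
    have h5 : Nl {p | ε < f p} := (h ε hε).mono (by
      intro p hp
      have h6 : ε < f p := hp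
      show ε < |f p|
      exact lt_of_lt_of_le h6 (le_abs_self _))
    exact hM.le_of_Nl hf h5
  have h2 : ∀ ε : ℝ, 0 < ε → -M ≤ ε := by
    intro ε hε
    have h3 := hM.smul (-1)
    rw [neg_one_mul] at h3
    have h5 : Nl {p | ε < (-1) * f p} := (h ε hε).mono (by
      intro p hp
      have h4 : ε < -1 * f p := hp
      show ε < |f p|
      have : -1 * f p ≤ |f p| := by rw [neg_one_mul]; exact neg_le_abs _
      exact lt_of_lt_of_le h4 this)
    exact h3.le_of_Nl (hf.smul _) h5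
  refine le_antisymm (le_of_forall_pos_le_add fun ε hε => ?_) ?_
  · rw [zero_add]; exact h1 ε hε
  · have : -M ≤ 0 := le_of_forall_pos_le_add fun ε hε => by rw [zero_add]; exact h2 ε hε
    linarith

end Pool.Agent.Helper812_TC
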