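import Pool.Agent.Helper812_TC.Tensor
import Pool.Agent.Helper812_TC.Gap

/-! The set of the values which a real virtual character approaches on a set of primes of positive density. -/

set_option autoImplicit false

open Filter Topology Polynomial Pool.Agent.H406.EDG

namespace Pool.Agent.Helper812_TC

variable {S : Finset ℕ}

/-- the limit values of `t`: the support of the distribution of the values of `t` -/
def Lim (t : Pr S → ℝ) : Set ℝ := {x | ∀ ε : ℝ, 0 < ε → ¬ Nl {p | |t p - x| < ε}}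

theorem not_Nl_univ : ¬ Nl (Set.univ : Set (Pr S)) := by
  intro h
  have h1 : HM (fun _ : Pr S => (1 : ℝ)) 0 := by
    have e : ind (Set.univ : Set (Pr S)) = fun _ => 1 := by
      funext p
      exact Set.indicator_of_mem (Set.mem_univ p) _
    unfold Nl at h
    rwa [e] at h
  have := h1.unique HM_one
  norm_num at this

theorem Lim_sub {t : Pr S → ℝ} {B : ℝ} (hB : ∀ p, |t p| ≤ B) : Lim t ⊆ Set.Icc (-B) B := by
  intro x hx
  by_contra h
  have h1 : B < |x| := by
    by_contra h2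
    exact h (abs_le.1 (not_lt.1 h2))
  refine hx (|x| - B) (by linarith) ?_
  have e : {p | |t p - x| < |x| - B} = ∅ := by
    ext p
    simp only [Set.mem_ofPred_eq, Set.mem_empty_iff_false, iff_false, not_lt]
    have := abs_sub_abs_le_abs_sub x (t p)
    rw [abs_sub_comm] at this
    linarith [hB p]
  rw [e]
  exact Nl.empty

theorem Lim_closed (t : Pr S → ℝ) : IsClosed (Lim t) := by
  rw [← isOpen_compl_iff, Metric.isOpen_iff]
  intro x hx
  simp only [Lim, Set.mem_compl_iff, Set.mem_ofPred_eq, not_forall, not_not] at hx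
  obtain ⟨ε, hε, h⟩ := hx
  refine ⟨ε / 2, by linarith, fun y hy => ?_⟩
  simp only [Lim, Set.mem_compl_iff, Set.mem_ofPred_eq, not_forall, not_not]
  refine ⟨ε / 2, by linarith, h.mono fun p hp => ?_⟩
  have h1 : |t p - y| < ε / 2 := hp
  have h2 : |y - x| < ε / 2 := by rwa [Metric.mem_ball, Real.dist_eq] at hy
  have h3 : |t p - x| ≤ |t p - y| + |y - x| := abs_sub_le _ _ _
  show |t p - x| < ε
  linarith

theorem Nl_of_open {t : Pr S → ℝ} {B : ℝ} (hB : ∀ p, |t p| ≤ B) {U : Set ℝ} (hU : IsOpen U) (h : Lim t ⊆ U) :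
    Nl {p | t p ∉ U} := by
  have hc : IsCompact (Set.Icc (-B) B \ U) := isCompact_Icc.diff hU
  have h1 : ∀ x ∈ Set.Icc (-B) B \ U, ∃ ε : ℝ, 0 < ε ∧ Nl {p | |t p - x| < ε} := by
    intro x hx
    by_contra hcon
    push Not at hcon
    exact hx.2 (h hcon)
  choose! ε hε hN using h1
  obtain ⟨s, hs1, hs2⟩ := hc.elim_nhds_subcover (fun x => Metric.ball x (ε x))
    fun x hx => Metric.ball_mem_nhds x (hε x hx)
  refine (Nl.biUnion s (fun x => {p | |t p - x| < ε x}) fun x hx => hN x (hs1 x hx)).mono fun p hp => ?_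
  have h2 := hs2 (show t p ∈ Set.Icc (-B) B \ U from ⟨abs_le.1 (hB p), hp⟩)
  simp only [Set.mem_iUnion, Metric.mem_ball, Real.dist_eq] at h2
  obtain ⟨x, hx, h3⟩ := h2
  simp only [Set.mem_iUnion]
  exact ⟨x, hx, h3⟩

theorem Lim_nonempty {t : Pr S → ℝ} {B : ℝ} (hB : ∀ p, |t p| ≤ B) : (Lim t).Nonempty := by
  by_contra h
  rw [Set.not_nonempty_iff_eq_empty] at h
  have h1 := Nl_of_open hB isOpen_empty h.subset
  refine not_Nl_univ (S := S) (h1.mono fun p _ => ?_)
  simp

theorem Lim_compact {t : Pr S → ℝ} {B : ℝ} (hB : ∀ p, |t p| ≤ B) : IsCompact (Lim t) :=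
  isCompact_Icc.of_isClosed_subset (Lim_closed t) (Lim_sub hB)

/-- If the mean square of `Q (t p)` is an integer, then `Q (t p)` is zero in the mean, or it is not
less than `1 - ε` outside a set of density zero. -/
theorem first_step {t : Pr S → ℝ} (htb : Bd t) (Q : ℝ[X]) (M : ℤ) (hM : HM (fun p => (Q ^ 2).eval (t p)) M) :
    (∀ ε : ℝ, 0 < ε → Nl {p | ε ≤ |Q.eval (t p)|}) ∨
      ∀ ε : ℝ, 0 < ε → ¬ Nl {p | 1 - ε < |Q.eval (t p)|} := by
  by_cases h0 : M ≤ 0
  · left
    have h1 : (0 : ℝ) ≤ M := HM.le (Bd.const 0) (htb.poly _) (HM_const 0) hM fun p => by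
      rw [eval_pow]; positivity
    have h2 : M = 0 := le_antisymm h0 (by exact_mod_cast h1)
    subst h2
    rw [Int.cast_zero] at hM
    intro ε hε
    refine (Nl_of_HM (htb.poly _) (fun p => by rw [eval_pow]; positivity) hM
      (show 0 < ε ^ 2 by positivity)).mono fun p hp => ?_
    have h3 : ε ≤ |Q.eval (t p)| := hp
    show ε ^ 2 ≤ (Q ^ 2).eval (t p)
    rw [eval_pow, ← sq_abs (eval (t p) Q)]
    exact pow_le_pow_left₀ hε.le h3 2
  · right
    intro ε hε hN
    set c : ℝ := max (1 - ε) 0 with hc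
    have hc1 : c < 1 := max_lt (by linarith) zero_lt_one
    have hc0 : 0 ≤ c := le_max_right _ _
    have h1 : (M : ℝ) ≤ c ^ 2 := by
      refine hM.le_of_Nl (htb.poly _) (hN.mono fun p hp => ?_)
      have h2 : c ^ 2 < (Q ^ 2).eval (t p) := hp
      rw [eval_pow, ← sq_abs (eval (t p) Q)] at h2
      have h3 : c < |Q.eval (t p)| := lt_of_pow_lt_pow_left₀ 2 (abs_nonneg _) h2
      exact lt_of_le_of_lt (le_max_left _ _) h3
    have h2 : (1 : ℝ) ≤ M := by exact_mod_cast (by omega : 1 ≤ M)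
    have h3 : c ^ 2 < 1 := by nlinarith
    linarith

/-- A monic real polynomial which is less than one on the limit values: they are zeros of an integer polynomial. -/
theorem finite_of_monic {t : Pr S → ℝ} (htb : Bd t) (HI : ∀ Q : ℤ[X], ∃ M : ℤ, HM (fun p => (rl Q).eval (t p)) M)
    (P : ℝ[X]) (hP : P.Monic) (h : ∀ x ∈ Lim t, |P.eval x| < 1) : (Lim t).Finite := by
  obtain ⟨B, hB⟩ := id htb
  have hne := Lim_nonempty hB
  have hco := Lim_compact hB
  obtain ⟨x1, hx1, hmax⟩ := hco.exists_isMaxOn hne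
    (f := fun x => |P.eval x|) (P.continuous.abs.continuousOn)
  obtain ⟨Q, hQ0, c, hc, hQ⟩ := small_int_of_monic P hP (Lim t) hne B
    (fun x hx => abs_le.2 (Lim_sub hB hx)) _ (h x1 hx1) fun x hx => hmax hx
  obtain ⟨M, hM⟩ := HI (Q ^ 2)
  have e : rl (Q ^ 2) = (rl Q) ^ 2 := by simp [rl]
  rw [e] at hM
  have hc0 : 0 ≤ c := (abs_nonneg _).trans (hQ x1 hx1)
  have hfs := first_step htb (rl Q) M hM
  have hzero : ∀ ε : ℝ, 0 < ε → Nl {p | ε ≤ |(rl Q).eval (t p)|} := by
    rcases hfs with h1 | h1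
    · exact h1
    · exfalso
      refine h1 ((1 - c) / 2) (by linarith) ?_
      have hU : IsOpen {x : ℝ | |(rl Q).eval x| < 1 - (1 - c) / 2} :=
        isOpen_lt (rl Q).continuous.abs continuous_const
      refine (Nl_of_open hB hU fun x hx => ?_).mono fun p hp => ?_
      · show |(rl Q).eval x| < 1 - (1 - c) / 2
        linarith [hQ x hx]
      · have h2 : 1 - (1 - c) / 2 < |(rl Q).eval (t p)| := hp
        show ¬ |(rl Q).eval (t p)| < 1 - (1 - c) / 2
        linarith
  have hroots : Lim t ⊆ {x | (rl Q).IsRoot x} := by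
    intro x hx
    by_contra hne0
    have hpos : 0 < |(rl Q).eval x| := abs_pos.2 hne0
    have hcont : ∀ᶠ y in 𝓝 x, |(rl Q).eval x| / 2 < |(rl Q).eval y| :=
      ((rl Q).continuous.abs.tendsto x).eventually (lt_mem_nhds (by linarith))
    obtain ⟨δ, hδ, h2⟩ := Metric.eventually_nhds_iff.1 hcont
    refine hx δ hδ ((hzero (|(rl Q).eval x| / 2) (by linarith)).mono fun p hp => ?_)
    exact (h2 (show dist (t p) x < δ by rw [Real.dist_eq]; exact hp)).le
  have hQr : rl Q ≠ 0 := by
    intro h0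
    apply hQ0
    apply Polynomial.map_injective (Int.castRingHom ℝ) Int.cast_injective
    rw [Polynomial.map_zero]
    exact h0
  exact (Polynomial.finite_setOfPred_isRoot hQr).subset hroots

end Pool.Agent.Helper812_TC
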