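import Pool.Agent.Helper812_TC.Mean

/-! Integral mean values of the integer polynomials in a virtual character. -/

set_option autoImplicit false

open Filter Topology Polynomial Pool.Agent.H406.EDG

namespace Pool.Agent.Helper812_TC

variable {S : Finset ℕ} {ι ι' : Type} [Fintype ι] [Fintype ι']

/-- the eigenvalues of the tensor product of `j` copies of a representation with eigenvalues `a` and
`l` copies of a representation with eigenvalues `b` -/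
noncomputable def tensor {ι ι' : Type} (j l : ℕ) (a : ι → ℂ) (b : ι' → ℂ)
    (w : (Fin j → ι) × (Fin l → ι')) : ℂ :=
  (∏ r, a (w.1 r)) * ∏ r, b (w.2 r)

theorem sum_tensor (j l : ℕ) (a : ι → ℂ) (b : ι' → ℂ) :
    ∑ w, tensor j l a b w = (∑ i, a i) ^ j * (∑ i, b i) ^ l := by
  rw [Fintype.sum_prod_type, Fintype.sum_pow, Fintype.sum_pow, Finset.sum_mul]
  refine Finset.sum_congr rfl fun x _ => ?_
  rw [Finset.mul_sum]
  rfl

omit [Fintype ι] [Fintype ι'] in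
theorem norm_tensor (j l : ℕ) {a : ι → ℂ} {b : ι' → ℂ} (ha : ∀ i, ‖a i‖ = 1) (hb : ∀ i, ‖b i‖ = 1)
    (w : (Fin j → ι) × (Fin l → ι')) : ‖tensor j l a b w‖ = 1 := by
  unfold tensor
  rw [norm_mul, norm_prod, norm_prod]
  simp [ha, hb]

/-- the partial Euler product with parameters `a` is meromorphic at `s = 1` -/
def Mero (a : Pr S → ι → ℂ) : Prop :=
  ∃ E : ℂ → ℂ, MeromorphicAt E 1 ∧ ∀ s : ℂ, 1 < s.re → E s = LL a (1 : DirichletCharacter ℂ 1) s

theorem tensor_mean {a : Pr S → ι → ℂ} {b : Pr S → ι' → ℂ} (ha : ∀ p i, ‖a p i‖ = 1)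
    (hb : ∀ p i, ‖b p i‖ = 1) {r : ℕ}
    (H : ∀ j l : ℕ, 1 ≤ j + l → j + l ≤ r → Mero fun p => tensor j l (a p) (b p)) (j l : ℕ) (hjl : j + l ≤ r) :
    ∃ M : ℤ, HM (fun p => ((∑ i, a p i) ^ j * (∑ i, b p i) ^ l).re) M := by
  by_cases h0 : j + l = 0
  · have hj : j = 0 := by omega
    have hl : l = 0 := by omega
    subst hj hl
    refine ⟨1, ?_⟩
    simpa using HM_one (S := S)
  · obtain ⟨E, hE, hEL⟩ := H j l (by omega) hjl
    obtain ⟨M, hM⟩ := HM_of_mero (fun p w => norm_tensor j l (ha p) (hb p) w) hE hEL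
    refine ⟨M, ?_⟩
    simp only [sum_tensor] at hM
    exact hM

theorem norm_tr_le {a : Pr S → ι → ℂ} (ha : ∀ p i, ‖a p i‖ = 1) (p : Pr S) : ‖∑ i, a p i‖ ≤ Fintype.card ι := by
  refine (norm_sum_le _ _).trans ?_
  simp [ha]

theorem Bd_tensor {a : Pr S → ι → ℂ} {b : Pr S → ι' → ℂ} (ha : ∀ p i, ‖a p i‖ = 1)
    (hb : ∀ p i, ‖b p i‖ = 1) (j l : ℕ) : Bd (fun p => ((∑ i, a p i) ^ j * (∑ i, b p i) ^ l).re) := by
  refine ⟨(Fintype.card ι : ℝ) ^ j * (Fintype.card ι' : ℝ) ^ l, fun p => ?_⟩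
  refine (Complex.abs_re_le_norm _).trans ?_
  rw [norm_mul, norm_pow, norm_pow]
  exact mul_le_mul (pow_le_pow_left₀ (norm_nonneg _) (norm_tr_le ha p) j)
    (pow_le_pow_left₀ (norm_nonneg _) (norm_tr_le hb p) l) (by positivity) (by positivity)

theorem pow_mean {a : Pr S → ι → ℂ} {b : Pr S → ι' → ℂ} (ha : ∀ p i, ‖a p i‖ = 1)
    (hb : ∀ p i, ‖b p i‖ = 1) {t : Pr S → ℝ} (ht : ∀ p, ∑ i, a p i - ∑ i, b p i = (t p : ℂ)) {r : ℕ}
    (H : ∀ j l : ℕ, 1 ≤ j + l → j + l ≤ r → Mero fun p => tensor j l (a p) (b p)) (k : ℕ) (hk : k ≤ r) :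
    ∃ M : ℤ, HM (fun p => t p ^ k) M := by
  choose! M hM using fun (j l : ℕ) (h : j + l ≤ r) => tensor_mean ha hb H j l h
  refine ⟨∑ m ∈ Finset.range (k + 1), ((-1) ^ (k - m) * (k.choose m : ℤ)) * M m (k - m), ?_⟩
  have e : ∀ p, t p ^ k = ∑ m ∈ Finset.range (k + 1), (((-1 : ℝ)) ^ (k - m) * (k.choose m : ℝ)) *
      ((∑ i, a p i) ^ m * (∑ i, b p i) ^ (k - m)).re := by
    intro p
    have h1 : ((t p ^ k : ℝ) : ℂ) = (∑ i, a p i + -∑ i, b p i) ^ k := by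
      push_cast
      rw [← ht p]
      ring
    rw [add_pow] at h1
    have h2 := congrArg Complex.re h1
    rw [Complex.ofReal_re, Complex.re_sum] at h2
    rw [h2]
    refine Finset.sum_congr rfl fun m _ => ?_
    rw [neg_pow]
    have e1 : (∑ i, a p i) ^ m * ((-1) ^ (k - m) * (∑ i, b p i) ^ (k - m)) * ((k.choose m : ℕ) : ℂ) =
        (((-1 : ℝ) ^ (k - m) * (k.choose m : ℝ) : ℝ) : ℂ) * ((∑ i, a p i) ^ m * (∑ i, b p i) ^ (k - m)) := by
      push_cast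
      ring
    rw [e1, Complex.re_ofReal_mul]
  simp only [e]
  push_cast
  refine HM.sum _ (fun m _ => (Bd_tensor ha hb m (k - m)).smul _) fun m hm => ?_
  have hm' := Finset.mem_range.1 hm
  exact (hM m (k - m) (by omega)).smul _

theorem Bd_t {a : Pr S → ι → ℂ} {b : Pr S → ι' → ℂ} (ha : ∀ p i, ‖a p i‖ = 1)
    (hb : ∀ p i, ‖b p i‖ = 1) {t : Pr S → ℝ} (ht : ∀ p, ∑ i, a p i - ∑ i, b p i = (t p : ℂ)) : Bd t := by
  refine ⟨Fintype.card ι + Fintype.card ι', fun p => ?_⟩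
  have h1 : |t p| = ‖∑ i, a p i - ∑ i, b p i‖ := by rw [ht p, Complex.norm_real, Real.norm_eq_abs]
  rw [h1]
  exact (norm_sub_le _ _).trans (add_le_add (norm_tr_le ha p) (norm_tr_le hb p))

theorem Bd.pow {t : Pr S → ℝ} (ht : Bd t) (k : ℕ) : Bd fun p => t p ^ k := by
  obtain ⟨B, hB⟩ := ht
  exact ⟨B ^ k, fun p => by rw [abs_pow]; exact pow_le_pow_left₀ (abs_nonneg _) (hB p) k⟩

theorem Bd.poly {t : Pr S → ℝ} (ht : Bd t) (F : ℝ[X]) : Bd fun p => F.eval (t p) := by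
  simp only [eval_eq_sum_range]
  exact Bd.sum _ fun k _ => (ht.pow k).smul _

/-- the mean values of the integer polynomials in `t` are integers -/
theorem poly_mean {t : Pr S → ℝ} (htb : Bd t) {r : ℕ}
    (H : ∀ k ≤ r, ∃ M : ℤ, HM (fun p => t p ^ k) M) (Q : ℤ[X]) (hQ : Q.natDegree ≤ r) :
    ∃ M : ℤ, HM (fun p => (rl Q).eval (t p)) M := by
  choose! M hM using H
  refine ⟨∑ k ∈ Finset.range (Q.natDegree + 1), Q.coeff k * M k, ?_⟩
  have e : ∀ p, (rl Q).eval (t p) = ∑ k ∈ Finset.range (Q.natDegree + 1), (Q.coeff k : ℝ) * t p ^ k := by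
    intro p
    rw [eval_eq_sum_range' (n := Q.natDegree + 1) (Nat.lt_succ_of_le (natDegree_map_le))]
    simp [rl]
  simp only [e]
  push_cast
  refine HM.sum _ (fun k _ => (htb.pow k).smul _) fun k hk => ?_
  have hk' := Finset.mem_range.1 hk
  exact (hM k (by omega)).smul _

end Pool.Agent.Helper812_TC
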